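import Pool.Agent.Lib.MP_9d2e01_pr.Plane

set_option autoImplicit false
set_option linter.unusedSectionVars false
set_option linter.deprecated false

namespace Pool.Agent.Lib.MP_9d2e01_pr

/-- Edges separating a set of faces `L` from the other faces of `D`. -/
def bd (L D : Set V) : Set V :=
  {m | ∃ p q, nb p q ∧ p ∈ L ∧ q ∈ D ∧ q ∉ L ∧ m = p + q + (1, 1)}

lemma bd_of_ne {L D : Set V} {p q : V} (hn : nb p q) (hp : p ∈ D) (hq : q ∈ D)
    (h : ¬ (p ∈ L ↔ q ∈ L)) : p + q + (1, 1) ∈ bd L D := by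
  by_cases hpL : p ∈ L
  · exact ⟨p, q, hn, hpL, hq, fun hqL => h ⟨fun _ => hqL, fun _ => hpL⟩, rfl⟩
  · have hqL : q ∈ L := by
      by_contra hqL; exact h ⟨fun h' => absurd h' hpL, fun h' => absurd h' hqL⟩
    exact ⟨q, p, hn.symm, hqL, hp, hpL, by rw [add_comm q p]⟩

/-- The boundary of a set of faces containing the bottom row and missing the top row contains a
left to right crossing. -/
lemma exists_crossing (n : ℕ) (hn : 1 ≤ n) (L : Set V)
    (hbot : ∀ x : ℤ, 0 ≤ x → x ≤ n - 1 → (x, (-1 : ℤ)) ∈ L) (htop : ∀ x : ℤ, (x, (n : ℤ)) ∉ L) :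
    ∃ a b : V, a.1 = 0 ∧ b.1 = n ∧ a ∈ Rect 0 n 0 n ∧
      Conn (bd L (Rect 0 (n - 1) (-1) n)) (Rect 0 n 0 n) a b := by
  classical
  set E := bd L (Rect 0 (n - 1) (-1) n) with hE
  set S := Rect 0 n 0 n with hS
  set C : Set V := {z | ∃ a : V, a.1 = 0 ∧ a ∈ S ∧ Conn E S a z} with hC
  set c : ℤ → ℤ → ℤ := fun x y => if (x, y) ∈ C then 1 else 0 with hc
  set χ : ℤ → ℤ → ℤ := fun x y => if (x, y) ∈ L then 1 else 0 with hχ
  have step : ∀ p q : V, nb p q → p ∈ S → q ∈ S → p + q ∈ E → (p ∈ C ↔ q ∈ C) := by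
    intro p q h1 h2 h3 h4
    constructor
    · rintro ⟨a, ha, ha', hc⟩; exact ⟨a, ha, ha', hc.tail h1 h2 h3 h4⟩
    · rintro ⟨a, ha, ha', hc⟩
      exact ⟨a, ha, ha', hc.tail h1.symm h3 h2 (by rwa [add_comm])⟩
  have FH : ∀ x y : ℤ, 0 ≤ x → x ≤ n - 1 → 0 ≤ y → y ≤ n →
      c x y * (χ x (y - 1) - χ x y) = c (x + 1) y * (χ x (y - 1) - χ x y) := by
    intro x y h1 h2 h3 h4
    by_cases h : (x, y - 1) ∈ L ↔ (x, y) ∈ L
    · simp only [hχ, h, sub_self, mul_zero]
    · have h5 : (x, y - 1) + (x, y) + (1, 1) ∈ E :=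
        bd_of_ne (by simp [nb]) (by simp only [Rect, Set.mem_setOf_eq]; omega)
          (by simp only [Rect, Set.mem_setOf_eq]; omega) h
      have h6 := step (x, y) (x + 1, y) (by simp [nb])
        (by simp only [hS, Rect, Set.mem_setOf_eq]; omega)
        (by simp only [hS, Rect, Set.mem_setOf_eq]; omega)
        (by convert h5 using 1; ext <;> simp <;> ring)
      simp only [hc, h6]
  have FV : ∀ x y : ℤ, 1 ≤ x → x ≤ n - 1 → -1 ≤ y → y ≤ n →
      c x y * (χ x y - χ (x - 1) y) = c x (y + 1) * (χ x y - χ (x - 1) y) := by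
    intro x y h1 h2 h3 h4
    by_cases h : (x - 1, y) ∈ L ↔ (x, y) ∈ L
    · simp only [hχ, h, sub_self, mul_zero]
    · have hy1 : y ≠ -1 := by
        rintro rfl
        exact h ⟨fun _ => hbot _ (by omega) (by omega), fun _ => hbot _ (by omega) (by omega)⟩
      have hy2 : y ≠ n := by
        rintro rfl
        exact h ⟨fun h' => absurd h' (htop _), fun h' => absurd h' (htop _)⟩
      have h5 : (x - 1, y) + (x, y) + (1, 1) ∈ E :=
        bd_of_ne (by simp [nb]) (by simp only [Rect, Set.mem_setOf_eq]; omega)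
          (by simp only [Rect, Set.mem_setOf_eq]; omega) h
      have h6 := step (x, y) (x, y + 1) (by simp [nb])
        (by simp only [hS, Rect, Set.mem_setOf_eq]; omega)
        (by simp only [hS, Rect, Set.mem_setOf_eq]; omega)
        (by convert h5 using 1; ext <;> simp <;> ring)
      simp only [hc, h6]
  have main : ∀ k : ℕ, k ≤ n - 1 →
      ∑ j ∈ Finset.range (n + 1), c k j * (χ k (j - 1) - χ k j) = 1 := by
    intro k
    induction k with
    | zero =>
      intro _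
      have e1 : ∀ j ∈ Finset.range (n + 1), c (0 : ℕ) j * (χ (0 : ℕ) (j - 1) - χ (0 : ℕ) j) =
          χ 0 ((j : ℕ) - 1) - χ 0 (((j + 1 : ℕ) : ℤ) - 1) := by
        intro j hj
        have hj' := Finset.mem_range.mp hj
        have : ((0 : ℤ), (j : ℤ)) ∈ C := ⟨(0, j), rfl,
          by simp only [hS, Rect, Set.mem_setOf_eq]; omega, Conn.refl _ _ _⟩
        simp [hc, this]
      rw [Finset.sum_congr rfl e1,
        Finset.sum_range_sub' (fun j : ℕ => χ 0 ((j : ℤ) - 1)) (n + 1)]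
      have h1 := hbot 0 le_rfl (by omega)
      have h2 := htop 0
      simp [hχ, h1, h2]
    | succ k ih =>
      intro hk
      have ih' := ih (by omega)
      have e1 : ∀ j ∈ Finset.range (n + 1),
          c (k + 1 : ℕ) j * (χ (k + 1 : ℕ) (j - 1) - χ (k + 1 : ℕ) j) =
          c k j * (χ k (j - 1) - χ k j) +
          (c (k + 1) ((j : ℕ) - 1) * (χ (k + 1) ((j : ℕ) - 1) - χ k ((j : ℕ) - 1)) -
            c (k + 1) (((j + 1 : ℕ) : ℤ) - 1) *
              (χ (k + 1) (((j + 1 : ℕ) : ℤ) - 1) - χ k (((j + 1 : ℕ) : ℤ) - 1))) := by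
        intro j hj
        have hj' := Finset.mem_range.mp hj
        have h1 := FH k j (by omega) (by omega) (by omega) (by omega)
        have h2 := FV (k + 1) (j - 1) (by omega) (by omega) (by omega) (by omega)
        simp only [add_sub_cancel_right, sub_add_cancel, Nat.cast_add, Nat.cast_one] at h1 h2 ⊢
        rw [h1, h2]; ring
      rw [Finset.sum_congr rfl e1, Finset.sum_add_distrib, ih',
        Finset.sum_range_sub' (fun j : ℕ => c (k + 1) ((j : ℤ) - 1) *
          (χ (k + 1) ((j : ℤ) - 1) - χ k ((j : ℤ) - 1))) (n + 1)]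
      have h1 := hbot k (by omega) (by omega)
      have h2 := hbot (k + 1) (by omega) (by omega)
      have h3 := htop k
      have h4 := htop (k + 1)
      simp [hχ, h1, h2, h3, h4]
  have h1 := main (n - 1) le_rfl
  by_contra hcon
  have h2 : ∀ j ∈ Finset.range (n + 1),
      c (n - 1 : ℕ) j * (χ (n - 1 : ℕ) (j - 1) - χ (n - 1 : ℕ) j) = 0 := by
    intro j hj
    have hj' := Finset.mem_range.mp hj
    rw [FH _ _ (by omega) (by omega) (by omega) (by omega)]
    have : (((n - 1 : ℕ) : ℤ) + 1, (j : ℤ)) ∉ C := by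
      rintro ⟨a, ha, ha', hc⟩
      exact hcon ⟨a, _, ha, by simp only; omega, ha', hc⟩
    simp only [hc, if_neg this, zero_mul]
  rw [Finset.sum_eq_zero h2] at h1
  exact absurd h1 (by norm_num)

/-- Two opposite corners of a unit square joined inside a bounded set `S` separate the other two
corners: they cannot both escape from the bounding box while avoiding `S`. -/
lemma pinch {S : Set V} {x0 x1 y0 y1 x y : ℤ} (hS : S ⊆ Rect x0 x1 y0 y1) (ha : (x, y) ∈ S)
    (h : Conn Set.univ S (x, y) (x + 1, y + 1)) {q q' : V}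
    (h1 : Conn Set.univ Sᶜ (x, y + 1) q) (h1' : (x, y + 1) ∉ S) (hq : q ∉ Rect x0 x1 y0 y1)
    (h2 : Conn Set.univ Sᶜ (x + 1, y) q') (h2' : (x + 1, y) ∉ S)
    (hq' : q' ∉ Rect x0 x1 y0 y1) : False := by
  obtain ⟨N, hN⟩ := h.pot
  have hb := hS (h.mem ha)
  have ha' := hS ha
  simp only [Rect, Set.mem_setOf_eq] at hb ha'
  set M : ℤ → ℤ → ℤ := fun u v => N (u, v) - (if u = x ∧ y + 1 ≤ v then 1 else 0) with hM
  have k1 : ∀ u v : ℤ, ((u, v) ∉ S ∨ (u + 1, v) ∉ S) → ¬ (u = x ∧ v = y + 1) →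
      M u v = M u (v - 1) := by
    intro u v hs hne
    have : N (u, v) = N (u, v - 1) := by
      by_contra hc
      have := hN.h1 u v hc
      tauto
    simp only [hM, this]; split_ifs <;> omega
  have k2 : ∀ u v : ℤ, ((u, v) ∉ S ∨ (u, v + 1) ∉ S) →
      M (u - 1) v - M u v = -(if u = x ∧ v = y then 1 else 0) := by
    intro u v hs
    have : N (u - 1, v) - N (u, v) + (if x = u ∧ y ≤ v then 1 else 0)
        - (if x + 1 = u ∧ y + 1 ≤ v then 1 else 0) = 0 := by
      by_contra hc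
      have := hN.h2 u v hc
      tauto
    simp only [hM]; split_ifs at this ⊢ <;> omega
  have hxy : ∀ u v : ℤ, (u, v) ∉ S → ¬ (u = x ∧ v = y) := by
    rintro u v h' ⟨rfl, rfl⟩; exact h' ha
  have hxy' : ∀ u v : ℤ, (u, v) ∉ S → ¬ (u = x + 1 ∧ v = y + 1) := by
    rintro u v h' ⟨rfl, rfl⟩; exact h' (h.mem ha)
  have step : ∀ p p' : V, nb p p' → p ∉ S → p' ∉ S → M (p.1 - 1) p.2 = M (p'.1 - 1) p'.2 := by
    have s1 : ∀ u v : ℤ, (u, v) ∉ S → M (u - 1) v = M u v := by
      intro u v hp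
      have := k2 u v (Or.inl hp)
      rw [if_neg (hxy u v hp)] at this; omega
    have s2 : ∀ u v : ℤ, (u, v) ∉ S → M (u - 1) v = M (u - 1) (v - 1) := by
      intro u v hp
      refine k1 (u - 1) v (Or.inr (by rwa [sub_add_cancel])) ?_
      have := hxy' u v hp; omega
    rintro ⟨u, v⟩ ⟨u', v'⟩ hn hp hp'
    simp only [nb] at hn ⊢
    rcases hn with ⟨e1, e2⟩ | ⟨e1, e2⟩ | ⟨e1, e2⟩ | ⟨e1, e2⟩ <;> subst e1 e2
    · rw [add_sub_cancel_right]; exact s1 _ _ hp
    · exact (s1 _ _ hp').symm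
    · have := s2 _ _ hp'; rw [add_sub_cancel_right] at this; exact this.symm
    · exact s2 _ _ hp
  have path : ∀ p p' : V, Conn Set.univ Sᶜ p p' → M (p.1 - 1) p.2 = M (p'.1 - 1) p'.2 := by
    intro p p' hc
    induction hc with
    | refl => rfl
    | tail _ hs ih => rw [ih]; exact step _ _ hs.1 hs.2.1 hs.2.2.1
  have out : ∀ p : V, p ∉ Rect x0 x1 y0 y1 → M (p.1 - 1) p.2 = 0 := by
    rintro ⟨u, v⟩ hp
    simp only [Rect, Set.mem_setOf_eq] at hp
    have hS' : ∀ z ∈ S, x0 ≤ z.1 ∧ z.1 ≤ x1 ∧ y0 ≤ z.2 ∧ z.2 ≤ y1 := fun z hz => hS hz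
    by_cases c1 : u < x0
    · have := hN.h5 (u - 1) v (Or.inl fun z hz => by have := hS' z hz; omega)
      simp only [hM, this]; split_ifs <;> omega
    by_cases c2 : x1 < u
    · have := hN.h5 (u - 1) v (Or.inr fun z hz => by have := hS' z hz; omega)
      simp only [hM, this]; split_ifs <;> omega
    by_cases c3 : v < y0
    · have := hN.h3 (u - 1) v (fun z hz => by have := hS' z hz; omega)
      simp only [hM, this]; split_ifs <;> omega
    · have := hN.h4 (u - 1) v (fun z hz => by have := hS' z hz; omega)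
      simp only [hM, this]; split_ifs <;> omega
  have e1 := (path _ _ h1).trans (out _ hq)
  have e2 := (path _ _ h2).trans (out _ hq')
  simp only [add_sub_cancel_right] at e1 e2
  have e3 := k2 x y (Or.inr h1')
  rw [if_pos ⟨rfl, rfl⟩] at e3
  have e4 := k1 (x - 1) (y + 1) (Or.inr (by rwa [sub_add_cancel])) (by omega)
  rw [add_sub_cancel_right] at e4
  omega

/-- Mirror image of `pinch`. -/
lemma pinch' {S : Set V} {x0 x1 y0 y1 x y : ℤ} (hS : S ⊆ Rect x0 x1 y0 y1) (ha : (x + 1, y) ∈ S)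
    (h : Conn Set.univ S (x + 1, y) (x, y + 1)) {q q' : V}
    (h1 : Conn Set.univ Sᶜ (x + 1, y + 1) q) (h1' : (x + 1, y + 1) ∉ S)
    (hq : q ∉ Rect x0 x1 y0 y1)
    (h2 : Conn Set.univ Sᶜ (x, y) q') (h2' : (x, y) ∉ S)
    (hq' : q' ∉ Rect x0 x1 y0 y1) : False := by
  set g : V → V := fun p => (-p.1, p.2) with hg
  have gn : ∀ p q, nb p q → nb (g p) (g q) := by
    intro p q h; simp only [hg, nb] at h ⊢; omega
  have gg : ∀ p, g (g p) = p := by intro p; simp [hg]
  have m1 : ∀ p p', Conn Set.univ S p p' → Conn Set.univ (g ⁻¹' S) (g p) (g p') :=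
    fun p p' hc => hc.map g gn (fun p hp => by simpa [gg] using hp) (fun _ _ _ _ _ _ => Set.mem_univ _)
  have m2 : ∀ p p', Conn Set.univ Sᶜ p p' → Conn Set.univ (g ⁻¹' S)ᶜ (g p) (g p') :=
    fun p p' hc => hc.map g gn (fun p hp => by simpa [gg] using hp) (fun _ _ _ _ _ _ => Set.mem_univ _)
  have e1 : g (x + 1, y) = (-(x + 1), y) := rfl
  have e2 : g (x, y + 1) = (-(x + 1) + 1, y + 1) := by simp [hg]
  have e3 : g (x + 1, y + 1) = (-(x + 1), y + 1) := rfl
  have e4 : g (x, y) = (-(x + 1) + 1, y) := by simp [hg]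
  refine pinch (S := g ⁻¹' S) (x0 := -x1) (x1 := -x0) (y0 := y0) (y1 := y1) (x := -(x + 1))
    (y := y) (q := g q) (q' := g q') ?_ ?_ ?_ ?_ ?_ ?_ ?_ ?_ ?_
  · intro p hp
    have := hS hp
    simp only [Rect, Set.mem_setOf_eq, hg] at this ⊢; omega
  · rw [← e1]; simpa [gg] using ha
  · rw [← e1, ← e2]; exact m1 _ _ h
  · rw [← e3]; exact m2 _ _ h1
  · rw [← e3]; simpa [gg] using h1'
  · simp only [Rect, Set.mem_setOf_eq, hg] at hq ⊢; omega
  · rw [← e4]; exact m2 _ _ h2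
  · rw [← e4]; simpa [gg] using h2'
  · simp only [Rect, Set.mem_setOf_eq, hg] at hq' ⊢; omega

end Pool.Agent.Lib.MP_9d2e01_pr
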