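import Mathlib

set_option autoImplicit false
set_option linter.unusedSectionVars false
set_option linter.deprecated false

namespace Pool.Agent.Lib.MP_9d2e01_pr

abbrev V := ℤ × ℤ

/-- Nearest neighbours. -/
def nb (p q : V) : Prop :=
  (q.1 = p.1 + 1 ∧ q.2 = p.2) ∨ (q.1 = p.1 - 1 ∧ q.2 = p.2) ∨
    (q.1 = p.1 ∧ q.2 = p.2 + 1) ∨ (q.1 = p.1 ∧ q.2 = p.2 - 1)

lemma nb.symm {p q : V} (h : nb p q) : nb q p := by
  unfold nb at *; omega

/-- Paths inside `R` using edges of `E`; an edge is named by the sum of its endpoints. -/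
def Conn (E R : Set V) : V → V → Prop :=
  Relation.ReflTransGen (fun a b => nb a b ∧ a ∈ R ∧ b ∈ R ∧ a + b ∈ E)

lemma Conn.refl (E R : Set V) (a : V) : Conn E R a a := Relation.ReflTransGen.refl

lemma Conn.tail {E R : Set V} {a b c : V} (h : Conn E R a b) (hn : nb b c) (hb : b ∈ R)
    (hc : c ∈ R) (he : b + c ∈ E) : Conn E R a c :=
  Relation.ReflTransGen.tail h ⟨hn, hb, hc, he⟩

lemma Conn.trans {E R : Set V} {a b c : V} (h : Conn E R a b) (h' : Conn E R b c) :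
    Conn E R a c := Relation.ReflTransGen.trans h h'

lemma Conn.symm {E R : Set V} {a b : V} (h : Conn E R a b) : Conn E R b a := by
  induction h with
  | refl => exact Conn.refl _ _ _
  | tail _ hs ih =>
    refine Relation.ReflTransGen.head ⟨hs.1.symm, hs.2.2.1, hs.2.1, ?_⟩ ih
    rw [add_comm]; exact hs.2.2.2

lemma Conn.map {E R E' R' : Set V} (g : V → V) (hn : ∀ p q, nb p q → nb (g p) (g q))
    (hR : ∀ p ∈ R, g p ∈ R')
    (hE : ∀ p q, nb p q → p ∈ R → q ∈ R → p + q ∈ E → g p + g q ∈ E') {a b : V}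
    (h : Conn E R a b) : Conn E' R' (g a) (g b) := by
  induction h with
  | refl => exact Conn.refl _ _ _
  | tail _ hs ih =>
    exact ih.tail (hn _ _ hs.1) (hR _ hs.2.1) (hR _ hs.2.2.1)
      (hE _ _ hs.1 hs.2.1 hs.2.2.1 hs.2.2.2)

lemma Conn.mono {E R E' R' : Set V} (hR : R ⊆ R')
    (hE : ∀ p q, nb p q → p ∈ R → q ∈ R → p + q ∈ E → p + q ∈ E') {a b : V}
    (h : Conn E R a b) : Conn E' R' a b :=
  Conn.map id (fun _ _ h => h) (fun _ h => hR h) hE h

lemma Conn.mem {E R : Set V} {a b : V} (h : Conn E R a b) (ha : a ∈ R) : b ∈ R := by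
  induction h with
  | refl => exact ha
  | tail _ hs _ => exact hs.2.2.1

/-- The cluster of a point. -/
def cl (E R : Set V) (a : V) : Set V := {z | z ∈ R ∧ Conn E R a z}

lemma Conn.cluster {E R : Set V} {a b : V} (h : Conn E R a b) : Conn E (cl E R a) a b := by
  induction h with
  | refl => exact Conn.refl _ _ _
  | tail h1 hs ih =>
    exact ih.tail hs.1 ⟨hs.2.1, h1⟩ ⟨hs.2.2.1, Relation.ReflTransGen.tail h1 hs⟩ hs.2.2.2

lemma rtg_mono {β : Type} {r s : β → β → Prop} (hrs : ∀ p q, r p q → s p q) {a b : β}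
    (h : Relation.ReflTransGen r a b) : Relation.ReflTransGen s a b := by
  induction h with
  | refl => exact Relation.ReflTransGen.refl
  | tail _ hs ih => exact ih.tail (hrs _ _ hs)

/-- First exit from a set. -/
lemma rtg_exit {β : Type} {r : β → β → Prop} {Q : Set β} {a b : β}
    (h : Relation.ReflTransGen r a b) (ha : a ∈ Q) (hb : b ∉ Q) :
    ∃ w w', Relation.ReflTransGen (fun p q => r p q ∧ p ∈ Q ∧ q ∈ Q) a w ∧ w ∈ Q ∧ w' ∉ Q ∧
      r w w' := by
  induction h using Relation.ReflTransGen.head_induction_on with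
  | refl => exact absurd ha hb
  | @head p q hpq _ ih =>
    by_cases hq : q ∈ Q
    · obtain ⟨w, w', h1, h2, h3, h4⟩ := ih hq
      exact ⟨w, w', Relation.ReflTransGen.head ⟨hpq, ha, hq⟩ h1, h2, h3, h4⟩
    · exact ⟨p, q, Relation.ReflTransGen.refl, ha, hq, hpq⟩

lemma Conn.exit {E R Q : Set V} {a b : V} (h : Conn E R a b) (ha : a ∈ Q) (hb : b ∉ Q) :
    ∃ w w', Conn E (R ∩ Q) a w ∧ w ∈ Q ∧ w' ∉ Q ∧ nb w w' ∧ w ∈ R ∧ w' ∈ R ∧ w + w' ∈ E := by
  obtain ⟨w, w', h1, h2, h3, h4⟩ := rtg_exit h ha hb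
  refine ⟨w, w', ?_, h2, h3, h4⟩
  exact rtg_mono
    (fun p q hpq => ⟨hpq.1.1, ⟨hpq.1.2.1, hpq.2.1⟩, ⟨hpq.1.2.2.1, hpq.2.2⟩, hpq.1.2.2.2⟩) h1

/-- Winding potential of a path on the faces; the face `(x, y)` has lower left corner `(x, y)`. -/
structure Pot (E R : Set V) (a b : V) (N : V → ℤ) : Prop where
  h1 : ∀ x y : ℤ, N (x, y) ≠ N (x, y - 1) →
    (2 * x + 1, 2 * y) ∈ E ∧ (x, y) ∈ R ∧ (x + 1, y) ∈ R
  h2 : ∀ x y : ℤ, N (x - 1, y) - N (x, y) + (if a.1 = x ∧ a.2 ≤ y then 1 else 0)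
    - (if b.1 = x ∧ b.2 ≤ y then 1 else 0) ≠ 0 →
    (2 * x, 2 * y + 1) ∈ E ∧ (x, y) ∈ R ∧ (x, y + 1) ∈ R
  h3 : ∀ x y : ℤ, (∀ z ∈ R, y < z.2) → N (x, y) = 0
  h4 : ∀ x y : ℤ, (∀ z ∈ R, z.2 ≤ y) →
    N (x, y) = (if a.1 ≤ x then 1 else 0) - (if b.1 ≤ x then 1 else 0)
  h5 : ∀ x y : ℤ, ((∀ z ∈ R, x < z.1) ∨ (∀ z ∈ R, z.1 ≤ x)) → N (x, y) = 0

lemma Conn.pot {E R : Set V} {a b : V} (h : Conn E R a b) : ∃ N, Pot E R a b N := by
  induction h with
  | refl =>
    refine ⟨fun _ => 0, ?_, ?_, ?_, ?_, ?_⟩ <;> intro x y <;> simp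
  | @tail b c _ hs ih =>
    obtain ⟨N, hN⟩ := ih
    obtain ⟨hn, hb, hc, he⟩ := hs
    obtain ⟨b1, b2⟩ := b
    obtain ⟨c1, c2⟩ := c
    simp only [nb] at hn
    have he' : (b1 + c1, b2 + c2) ∈ E := he
    rcases hn with ⟨e1, e2⟩ | ⟨e1, e2⟩ | ⟨e1, e2⟩ | ⟨e1, e2⟩
    · subst e1 e2
      refine ⟨fun p => N p + (if p.1 = b1 ∧ c2 ≤ p.2 then 1 else 0), ?_, ?_, ?_, ?_, ?_⟩
      · intro x y hxy
        by_cases h0 : N (x, y) = N (x, y - 1)
        · have : x = b1 ∧ y = c2 := by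
            simp only at hxy; split_ifs at hxy <;> omega
          obtain ⟨rfl, rfl⟩ := this
          refine ⟨?_, hb, hc⟩
          convert he' using 2 <;> ring
        · exact hN.h1 x y h0
      · intro x y hxy
        apply hN.h2 x y
        simp only at hxy ⊢; split_ifs at hxy ⊢ <;> omega
      · intro x y hy
        have := hy _ hb
        simp only at this ⊢
        rw [hN.h3 x y hy, if_neg (by omega)]; rfl
      · intro x y hy
        have := hy _ hb
        simp only at this ⊢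
        rw [hN.h4 x y hy]; simp only; split_ifs <;> omega
      · intro x y hy
        simp only
        rw [hN.h5 x y hy, if_neg]
        · rfl
        · rcases hy with hy | hy
          · have := hy _ hb; simp only at this; omega
          · have := hy _ hc; simp only at this; omega
    · subst e1 e2
      refine ⟨fun p => N p - (if p.1 = b1 - 1 ∧ c2 ≤ p.2 then 1 else 0), ?_, ?_, ?_, ?_, ?_⟩
      · intro x y hxy
        by_cases h0 : N (x, y) = N (x, y - 1)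
        · have : x = b1 - 1 ∧ y = c2 := by
            simp only at hxy; split_ifs at hxy <;> omega
          obtain ⟨rfl, rfl⟩ := this
          refine ⟨?_, hc, ?_⟩
          · convert he' using 2 <;> ring
          · convert hb using 2; ring
        · exact hN.h1 x y h0
      · intro x y hxy
        apply hN.h2 x y
        simp only at hxy ⊢; split_ifs at hxy ⊢ <;> omega
      · intro x y hy
        have := hy _ hb
        simp only at this ⊢
        rw [hN.h3 x y hy, if_neg (by omega)]; rfl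
      · intro x y hy
        have := hy _ hb
        simp only at this ⊢
        rw [hN.h4 x y hy]; simp only; split_ifs <;> omega
      · intro x y hy
        simp only
        rw [hN.h5 x y hy, if_neg]
        · rfl
        · rcases hy with hy | hy
          · have := hy _ hc; simp only at this; omega
          · have := hy _ hb; simp only at this; omega
    · subst e1 e2
      refine ⟨N, hN.h1, ?_, hN.h3, hN.h4, hN.h5⟩
      intro x y hxy
      by_cases h0 : x = c1 ∧ y = b2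
      · obtain ⟨rfl, rfl⟩ := h0
        refine ⟨?_, hb, hc⟩
        convert he' using 2 <;> ring
      · apply hN.h2 x y
        simp only at hxy ⊢; split_ifs at hxy ⊢ <;> omega
    · subst e1 e2
      refine ⟨N, hN.h1, ?_, hN.h3, hN.h4, hN.h5⟩
      intro x y hxy
      by_cases h0 : x = c1 ∧ y = b2 - 1
      · obtain ⟨rfl, rfl⟩ := h0
        refine ⟨?_, hc, ?_⟩
        · convert he' using 2 <;> ring
        · convert hb using 2; ring
      · apply hN.h2 x y
        simp only at hxy ⊢; split_ifs at hxy ⊢ <;> omega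

/-- Closed rectangles. -/
def Rect (x0 x1 y0 y1 : ℤ) : Set V := {p | x0 ≤ p.1 ∧ p.1 ≤ x1 ∧ y0 ≤ p.2 ∧ p.2 ≤ y1}

lemma Rect.finite (x0 x1 y0 y1 : ℤ) : (Rect x0 x1 y0 y1).Finite := by
  refine ((Set.finite_Icc x0 x1).prod (Set.finite_Icc y0 y1)).subset ?_
  intro p hp
  exact ⟨⟨hp.1, hp.2.1⟩, hp.2.2⟩

/-- Potential of a left to right crossing. -/
structure LR (E R : Set V) (x0 x1 y0 y1 : ℤ) (N : V → ℤ) : Prop where
  around : ∀ x y : ℤ, x0 ≤ x → x ≤ x1 → (x, y) ∉ R →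
    N (x - 1, y) = N (x, y) ∧ N (x, y - 1) = N (x, y) ∧ N (x - 1, y - 1) = N (x, y)
  dual : ∀ p q : V, nb p q → x0 ≤ p.1 → p.1 < x1 → x0 ≤ q.1 → q.1 < x1 →
    p + q + (1, 1) ∉ E → N p = N q
  low : ∀ x y : ℤ, y < y0 → N (x, y) = 0
  high : ∀ x y : ℤ, y1 ≤ y → x0 - 1 ≤ x → x ≤ x1 → N (x, y) = 1

lemma Conn.lr {E R : Set V} {a b : V} {x0 x1 y0 y1 : ℤ} (h : Conn E R a b) (ha : a ∈ R)
    (hR : R ⊆ Rect x0 x1 y0 y1) (ha1 : a.1 = x0) (hb1 : b.1 = x1) :
    ∃ N, LR E R x0 x1 y0 y1 N := by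
  obtain ⟨N, hN⟩ := h.pot
  have hb := h.mem ha
  have ha' := hR ha
  have hb' := hR hb
  obtain ⟨a1, a2⟩ := a
  obtain ⟨b1, b2⟩ := b
  simp only [Rect, Set.mem_setOf_eq] at ha' hb' ha1 hb1
  subst ha1 hb1
  set M : V → ℤ := fun p => N p + (if p.1 = a1 - 1 ∧ a2 ≤ p.2 then 1 else 0) +
    (if p.1 = b1 ∧ b2 ≤ p.2 then 1 else 0) with hM
  have k1 : ∀ x y : ℤ, M (x, y) ≠ M (x, y - 1) →
      ((2 * x + 1, 2 * y) ∈ E ∧ (x, y) ∈ R ∧ (x + 1, y) ∈ R) ∨ (x = a1 - 1 ∧ y = a2) ∨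
        (x = b1 ∧ y = b2) := by
    intro x y hxy
    by_cases h0 : N (x, y) = N (x, y - 1)
    · right
      simp only [hM] at hxy; split_ifs at hxy <;> omega
    · exact Or.inl (hN.h1 x y h0)
  have k2 : ∀ x y : ℤ, a1 ≤ x → x ≤ b1 → M (x - 1, y) ≠ M (x, y) →
      (2 * x, 2 * y + 1) ∈ E ∧ (x, y) ∈ R ∧ (x, y + 1) ∈ R := by
    intro x y h1 h2 hxy
    apply hN.h2 x y
    simp only [hM] at hxy ⊢; split_ifs at hxy ⊢ <;> omega
  refine ⟨M, ?_, ?_, ?_, ?_⟩
  · intro x y h1 h2 hz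
    have e1 : M (x - 1, y) = M (x, y) := by
      by_contra hc; exact hz (k2 x y h1 h2 hc).2.1
    have e2 : M (x, y) = M (x, y - 1) := by
      by_contra hc
      rcases k1 x y hc with h3 | h3 | h3
      · exact hz h3.2.1
      · omega
      · obtain ⟨rfl, rfl⟩ := h3; exact hz hb
    have e3 : M (x - 1, y - 1) = M (x, y - 1) := by
      by_contra hc
      have := (k2 x (y - 1) h1 h2 hc).2.2
      rw [sub_add_cancel] at this
      exact hz this
    exact ⟨e1, e2.symm, e3.trans e2.symm⟩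
  · rintro ⟨p1, p2⟩ ⟨q1, q2⟩ hn h1 h2 h3 h4 he
    simp only [nb] at hn h1 h2 h3 h4
    have he' : (p1 + q1 + 1, p2 + q2 + 1) ∉ E := he
    by_contra hc
    rcases hn with ⟨e1, e2⟩ | ⟨e1, e2⟩ | ⟨e1, e2⟩ | ⟨e1, e2⟩
    · subst e1 e2
      have := (k2 (p1 + 1) q2 (by omega) (by omega) (by rwa [add_sub_cancel_right])).1
      apply he'; convert this using 2 <;> ring
    · subst e1 e2
      have := (k2 p1 q2 (by omega) (by omega) (Ne.symm hc)).1
      apply he'; convert this using 2 <;> ring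
    · subst e1 e2
      rcases k1 q1 (p2 + 1) (by rw [add_sub_cancel_right]; exact Ne.symm hc) with h5 | h5 | h5
      · apply he'; convert h5.1 using 2 <;> ring
      · omega
      · omega
    · subst e1 e2
      rcases k1 q1 p2 hc with h5 | h5 | h5
      · apply he'; convert h5.1 using 2 <;> ring
      · omega
      · omega
  · intro x y hy
    have := hN.h3 x y (fun z hz => by have := hR hz; simp only [Rect, Set.mem_setOf_eq] at this; omega)
    simp only [hM, this]; split_ifs <;> omega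
  · intro x y hy h1 h2
    have := hN.h4 x y (fun z hz => by have := hR hz; simp only [Rect, Set.mem_setOf_eq] at this; omega)
    simp only [hM, this]; split_ifs <;> omega

lemma LR.conn_dual {E R : Set V} {x0 x1 y0 y1 : ℤ} {N : V → ℤ} (hN : LR E R x0 x1 y0 y1 N)
    {E' D : Set V} (hD : ∀ p ∈ D, x0 ≤ p.1 ∧ p.1 < x1)
    (hE : ∀ p q, nb p q → p ∈ D → q ∈ D → p + q ∈ E' → p + q + (1, 1) ∉ E) {p q : V}
    (h : Conn E' D p q) : N p = N q := by
  induction h with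
  | refl => rfl
  | tail _ hs ih =>
    rw [ih]
    exact hN.dual _ _ hs.1 (hD _ hs.2.1).1 (hD _ hs.2.1).2 (hD _ hs.2.2.1).1 (hD _ hs.2.2.1).2
      (hE _ _ hs.1 hs.2.1 hs.2.2.1 hs.2.2.2)

lemma LR.step {E R : Set V} {x0 x1 y0 y1 : ℤ} {N : V → ℤ} (hN : LR E R x0 x1 y0 y1 N)
    {p q : V} (hn : nb p q) (h1 : x0 ≤ p.1) (h2 : p.1 ≤ x1) (h3 : x0 ≤ q.1) (h4 : q.1 ≤ x1)
    (hp : p ∉ R) (hq : q ∉ R) : N p = N q := by
  obtain ⟨p1, p2⟩ := p
  obtain ⟨q1, q2⟩ := q
  have a := hN.around p1 p2 h1 h2 hp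
  have b := hN.around q1 q2 h3 h4 hq
  simp only [nb] at hn
  rcases hn with ⟨e1, e2⟩ | ⟨e1, e2⟩ | ⟨e1, e2⟩ | ⟨e1, e2⟩ <;> subst e1 e2
  · have := b.1; rwa [add_sub_cancel_right] at this
  · exact a.1.symm
  · have := b.2.1; rwa [add_sub_cancel_right] at this
  · exact a.2.1.symm

/-- A left to right path and a bottom to top path in a rectangle meet. -/
lemma cross_meet {E E' R R' : Set V} {x0 x1 y0 y1 : ℤ} {a b c d : V} (h : Conn E R a b)
    (ha : a ∈ R) (hR : R ⊆ Rect x0 x1 y0 y1) (ha1 : a.1 = x0) (hb1 : b.1 = x1)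
    (h' : Conn E' R' c d) (hc : c ∈ R') (hR' : ∀ p ∈ R', x0 ≤ p.1 ∧ p.1 ≤ x1) (hc2 : c.2 ≤ y0)
    (hd2 : y1 ≤ d.2) : ∃ z, Conn E R a z ∧ Conn E' R' c z := by
  by_contra hcon
  push Not at hcon
  obtain ⟨N, hN⟩ := h.cluster.lr (x0 := x0) (x1 := x1) (y0 := y0) (y1 := y1)
    ⟨ha, Conn.refl _ _ _⟩ (fun z hz => hR hz.1) ha1 hb1
  have key : ∀ z, Conn E' R' c z → N z = 0 := by
    intro z hz
    induction hz with
    | refl =>
      have := hN.around c.1 c.2 (hR' _ hc).1 (hR' _ hc).2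
        (fun hm => hcon _ hm.2 (Conn.refl _ _ _))
      rw [← this.2.1]; exact hN.low _ _ (by omega)
    | tail h1 hs ih =>
      rw [← ih]
      refine (hN.step hs.1 (hR' _ hs.2.1).1 (hR' _ hs.2.1).2 (hR' _ hs.2.2.1).1
        (hR' _ hs.2.2.1).2 (fun hm => hcon _ hm.2 h1)
        (fun hm => hcon _ hm.2 (Relation.ReflTransGen.tail h1 hs))).symm
  have h1 := key d h'
  have hd := hR' _ (h'.mem hc)
  have h2 := hN.high d.1 d.2 hd2 (by omega) hd.2
  have : N (d.1, d.2) = N d := rfl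
  omega

end Pool.Agent.Lib.MP_9d2e01_pr
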