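import Pool.Agent.Lib.MP_9d2e01_pr.Defs
import Pool.Agent.Lib.MP_9d2e01_pr.Plane

set_option autoImplicit false
set_option linter.unusedSectionVars false
set_option linter.deprecated false

namespace Pool.Agent.Lib.MP_9d2e01_pr

open Function

/-- Offsets of the four faces around a site. -/
def off : Fin 4 → V := ![(0, 0), (0, -1), (-1, -1), (-1, 0)]

/-- The face on the right of the edge leaving `x` in direction `d`. -/
def cor (x : V) (d : Fin 4) : V := x + off d

/-- Crossing an edge whose arrow is neither the initial rotor nor its successor. -/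
def RStep (ρ : V → Fin 4) (p q : V) : Prop :=
  ∃ x, (p = cor x (ρ x + 2) ∧ q = cor x (ρ x + 1)) ∨ (p = cor x (ρ x + 3) ∧ q = cor x (ρ x + 2))

/-- Active edges. -/
def Act (S : Set V) (ρ : V → Fin 4) (x : V) (d : Fin 4) : Prop :=
  (cor x (d + 3) ∈ S ∧ cor x d ∈ S) ∨ (cor x d ∈ S ∧ d = ρ x + 1) ∨
    (cor x (d + 3) ∈ S ∧ d + 2 = ρ (x + dir d) + 1)

lemma cor_rev (x : V) (d : Fin 4) : cor (x + dir d) (d + 2) = cor x (d + 3) := by
  fin_cases d <;> simp [cor, off, dir] <;> ext <;> simp

lemma cor_rev' (x : V) (d : Fin 4) : cor (x + dir d) (d + 2 + 3) = cor x d := by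
  fin_cases d <;> simp [cor, off, dir] <;> ext <;> simp

lemma dir_rev (x : V) (d : Fin 4) : x + dir d + dir (d + 2) = x := by
  fin_cases d <;> simp [dir] <;> ext <;> simp

lemma Act.symm {S : Set V} {ρ : V → Fin 4} {x : V} {d : Fin 4} (h : Act S ρ x d) :
    Act S ρ (x + dir d) (d + 2) := by
  unfold Act at *
  rw [cor_rev, cor_rev', dir_rev]
  have e : d + 2 + 2 = d := by fin_cases d <;> rfl
  rw [e]
  tauto

lemma init_seg (A : Fin 4 → Prop) [DecidablePred A] (r : Fin 4) (h1 : A (r + 2) → A (r + 1))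
    (h2 : A (r + 3) → A (r + 2)) (h3 : A r → A (r + 3)) (k : ℕ)
    (hk : k + 1 ≤ (Finset.univ.filter A).card) : k ≤ 3 ∧ A (r + Fin.ofNat 4 k + 1) := by
  have h4 : k ≤ 3 := by
    have := Finset.card_filter_le Finset.univ A
    simp at this; omega
  refine ⟨h4, ?_⟩
  rw [Finset.card_filter, Fin.sum_univ_four] at hk
  by_cases a0 : A 0 <;> by_cases a1 : A 1 <;> by_cases a2 : A 2 <;> by_cases a3 : A 3 <;>
    interval_cases k <;> fin_cases r <;> simp_all <;> assumption

lemma Act.seg {S : Set V} {ρ : V → Fin 4} (hS : ∀ p q, RStep ρ p q → p ∈ S → q ∈ S) (x : V) :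
    (Act S ρ x (ρ x + 2) → Act S ρ x (ρ x + 1)) ∧ (Act S ρ x (ρ x + 3) → Act S ρ x (ρ x + 2)) ∧
      (Act S ρ x (ρ x) → Act S ρ x (ρ x + 3)) := by
  have c1 := hS _ _ ⟨x, Or.inl ⟨rfl, rfl⟩⟩
  have c2 := hS _ _ ⟨x, Or.inr ⟨rfl, rfl⟩⟩
  have e1 : ρ x + 2 + 3 = ρ x + 1 := by generalize ρ x = r; fin_cases r <;> rfl
  have e2 : ρ x + 3 + 3 = ρ x + 2 := by generalize ρ x = r; fin_cases r <;> rfl
  have n1 : ρ x + 2 ≠ ρ x + 1 := by generalize ρ x = r; fin_cases r <;> decide
  have n2 : ρ x + 3 ≠ ρ x + 1 := by generalize ρ x = r; fin_cases r <;> decide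
  have n3 : ρ x ≠ ρ x + 1 := by generalize ρ x = r; fin_cases r <;> decide
  unfold Act
  rw [e1, e2]
  tauto

lemma Act.finite {S : Set V} (hS : S.Finite) (ρ : V → Fin 4) :
    {e : V × Fin 4 | Act S ρ e.1 e.2}.Finite := by
  refine (((hS.prod (Set.finite_univ (α := Fin 4))).image
    (fun z : V × Fin 4 => z.1 - off z.2)).prod (Set.finite_univ (α := Fin 4))).subset ?_
  rintro ⟨x, d⟩ (h | h | h)
  · exact ⟨⟨(cor x d, d), ⟨h.2, trivial⟩, by simp [cor]⟩, trivial⟩
  · exact ⟨⟨(cor x d, d), ⟨h.1, trivial⟩, by simp [cor]⟩, trivial⟩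
  · exact ⟨⟨(cor x (d + 3), d + 3), ⟨h.1, trivial⟩, by simp [cor]⟩, trivial⟩

/-- Position at time `t` from an arbitrary state. -/
def pos (s : V × (V → Fin 4)) (t : ℕ) : V := (step^[t] s).1

/-- Number of visits before time `t`. -/
def cnt (s : V × (V → Fin 4)) (t : ℕ) (x : V) : ℕ :=
  ∑ u ∈ Finset.range t, if pos s u = x then 1 else 0

lemma cnt_succ (s : V × (V → Fin 4)) (t : ℕ) (x : V) :
    cnt s (t + 1) x = cnt s t x + if pos s t = x then 1 else 0 := Finset.sum_range_succ _ _

lemma rot_eq (s : V × (V → Fin 4)) (t : ℕ) (x : V) :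
    (step^[t] s).2 x = s.2 x + Fin.ofNat 4 (cnt s t x) := by
  induction t with
  | zero => simp [cnt]
  | succ t ih =>
    rw [iterate_succ_apply', cnt_succ]
    by_cases h : pos s t = x
    · have h' : (step^[t] s).1 = x := h
      simp only [step, h', update_self, ih, h, if_true]
      generalize cnt s t x = k
      generalize s.2 x = r
      ext; simp [Fin.val_add, add_assoc]
    · have h' : x ≠ (step^[t] s).1 := fun e => h e.symm
      simp only [step, update_of_ne h', ih, h, if_false, add_zero]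

lemma pos_succ (s : V × (V → Fin 4)) (t : ℕ) :
    pos s (t + 1) = pos s t + dir (s.2 (pos s t) + Fin.ofNat 4 (cnt s t (pos s t)) + 1) := by
  unfold pos
  rw [iterate_succ_apply', ← rot_eq]
  rfl

lemma cnt_mono (s : V × (V → Fin 4)) {t t' : ℕ} (h : t ≤ t') (x : V) :
    cnt s t x ≤ cnt s t' x :=
  Finset.sum_le_sum_of_subset (Finset.range_mono h)

lemma returns (s : V × (V → Fin 4)) {S : Set V} (hf : S.Finite)
    (hS : ∀ p q, RStep s.2 p q → p ∈ S → q ∈ S) (h0 : cor s.1 (s.2 s.1 + 1) ∈ S) :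
    ∃ t, 1 ≤ t ∧ pos s t = s.1 := by
  classical
  by_contra hcon
  push Not at hcon
  set e : ℕ → V × Fin 4 := fun t =>
    (pos s t, s.2 (pos s t) + Fin.ofNat 4 (cnt s t (pos s t)) + 1) with he
  have inj : ∀ u v, u < v → cnt s u (pos s u) ≤ 3 → cnt s v (pos s v) ≤ 3 → e u ≠ e v := by
    intro u v huv h1 h2 heq
    simp only [he, Prod.mk.injEq] at heq
    obtain ⟨e1, e2⟩ := heq
    have h3 := cnt_mono s (show u + 1 ≤ v from huv) (pos s u)
    rw [cnt_succ, if_pos rfl] at h3
    rw [← e1] at e2 h2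
    have e3 := add_left_cancel (add_right_cancel e2)
    have e4 := congrArg Fin.val e3
    simp only [Fin.val_ofNat] at e4
    omega
  have inv : ∀ t, ∀ u < t, cnt s u (pos s u) ≤ 3 ∧ Act S s.2 (e u).1 (e u).2 := by
    intro t
    induction t with
    | zero => intro u hu; omega
    | succ t ih =>
      intro u hu
      rcases Nat.lt_succ_iff_lt_or_eq.mp hu with hu | rfl
      · exact ih u hu
      rcases Nat.eq_zero_or_pos u with rfl | hpos
      · refine ⟨by simp [cnt], Or.inr (Or.inl ⟨?_, ?_⟩)⟩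
        · simpa [he, cnt, pos] using h0
        · simp [he, cnt, pos]
      have hx : pos s 0 ≠ pos s u := fun h => hcon u hpos h.symm
      have c1 : ((Finset.range u).filter (fun v => pos s (v + 1) = pos s u)).card =
          cnt s u (pos s u) + 1 := by
        have h1 := cnt_succ s u (pos s u)
        rw [if_pos rfl] at h1
        rw [← h1, Finset.card_filter, cnt, Finset.sum_range_succ', if_neg hx, add_zero]
      have c2 : ((Finset.range u).filter (fun v => pos s (v + 1) = pos s u)).card ≤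
          (Finset.univ.filter (Act S s.2 (pos s u))).card := by
        refine Finset.card_le_card_of_injOn (fun v => (e v).2 + 2) ?_ ?_
        · intro v hv
          obtain ⟨h1, h2⟩ := Finset.mem_filter.mp (Finset.mem_coe.mp hv)
          have h3 := (ih v (Finset.mem_range.mp h1)).2.symm
          rw [pos_succ] at h2
          simp only [he] at h3 ⊢
          rw [h2] at h3
          simpa using h3
        · intro v hv w hw hvw
          obtain ⟨h1, h2⟩ := Finset.mem_filter.mp (Finset.mem_coe.mp hv)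
          obtain ⟨k1, k2⟩ := Finset.mem_filter.mp (Finset.mem_coe.mp hw)
          have h3 : (e v).2 = (e w).2 := add_right_cancel hvw
          have h4 : e v = e w := by
            refine Prod.ext ?_ h3
            rw [pos_succ] at h2 k2
            have h5 : (e v).1 + dir (e v).2 = (e w).1 + dir (e w).2 := h2.trans k2.symm
            rw [h3] at h5
            exact add_right_cancel h5
          have iv := (ih v (Finset.mem_range.mp h1)).1
          have iw := (ih w (Finset.mem_range.mp k1)).1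
          rcases lt_trichotomy v w with h | h | h
          · exact absurd h4 (inj v w h iv iw)
          · exact h
          · exact absurd h4.symm (inj w v h iw iv)
      obtain ⟨s1, s2, s3⟩ := Act.seg hS (pos s u)
      exact init_seg _ _ s1 s2 s3 _ (c1 ▸ c2)
  have hinj : Injective e := by
    intro v w h4
    have iv := (inv (v + 1) v (by omega)).1
    have iw := (inv (w + 1) w (by omega)).1
    rcases lt_trichotomy v w with h | h | h
    · exact absurd h4 (inj v w h iv iw)
    · exact h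
    · exact absurd h4.symm (inj w v h iw iv)
  exact Set.infinite_of_injective_forall_mem hinj
    (fun t => (inv (t + 1) t (by omega)).2) (Act.finite hf s.2)

/-- All face clusters are finite. -/
def AllFin (ρ : V → Fin 4) : Prop := ∀ φ, {q | Relation.ReflTransGen (RStep ρ) φ q}.Finite

lemma AllFin.update {ρ : V → Fin 4} (h : AllFin ρ) (x : V) (d : Fin 4) :
    AllFin (update ρ x d) := by
  intro φ
  refine ((h φ).union (Set.finite_iUnion (fun c : Fin 4 => h (cor x c)))).subset ?_
  intro q hq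
  simp only [Set.mem_setOf_eq] at hq
  induction hq with
  | refl => exact Or.inl Relation.ReflTransGen.refl
  | @tail b c _ hs ih =>
    obtain ⟨y, hy⟩ := hs
    by_cases hxy : y = x
    · subst hxy
      right
      rcases hy with ⟨_, rfl⟩ | ⟨_, rfl⟩ <;>
        exact Set.mem_iUnion.mpr ⟨_, Relation.ReflTransGen.refl⟩
    · rw [update_of_ne hxy] at hy
      rcases ih with ih | ih
      · exact Or.inl (Relation.ReflTransGen.tail ih ⟨y, hy⟩)
      · obtain ⟨c', hc'⟩ := Set.mem_iUnion.mp ih
        exact Or.inr (Set.mem_iUnion.mpr ⟨c', Relation.ReflTransGen.tail hc' ⟨y, hy⟩⟩)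

lemma AllFin.iter {s : V × (V → Fin 4)} (h : AllFin s.2) (t : ℕ) : AllFin (step^[t] s).2 := by
  induction t with
  | zero => exact h
  | succ t ih => rw [iterate_succ_apply']; exact ih.update _ _

lemma AllFin.again {s : V × (V → Fin 4)} (h : AllFin s.2) (t : ℕ) :
    ∃ u, t < u ∧ pos s u = pos s t := by
  obtain ⟨u, h1, h2⟩ := returns (step^[t] s) (h.iter t _)
    (fun p q hpq hp => Relation.ReflTransGen.tail hp hpq) Relation.ReflTransGen.refl
  refine ⟨u + t, by omega, ?_⟩
  unfold pos at *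
  rw [iterate_add_apply]; exact h2

lemma AllFin.next {s : V × (V → Fin 4)} (h : AllFin s.2) (t : ℕ) :
    ∃ u, t < u ∧ pos s u = pos s t ∧ cnt s u (pos s t) = cnt s t (pos s t) + 1 := by
  classical
  have ex := h.again t
  refine ⟨Nat.find ex, (Nat.find_spec ex).1, (Nat.find_spec ex).2, ?_⟩
  have key : ∀ v, t < v → v ≤ Nat.find ex → cnt s v (pos s t) = cnt s t (pos s t) + 1 := by
    intro v hv
    induction v, hv using Nat.le_induction with
    | base => intro _; rw [cnt_succ, if_pos rfl]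
    | succ v hv ih =>
      intro h2
      rw [cnt_succ, ih (by omega), if_neg, add_zero]
      exact fun h3 => Nat.find_min ex (show v < Nat.find ex by omega) ⟨hv, h3⟩
  exact key _ (Nat.find_spec ex).1 le_rfl

lemma AllFin.nbr {s : V × (V → Fin 4)} (h : AllFin s.2) (x : V) (d : Fin 4)
    (hx : ∀ T, ∃ t, T ≤ t ∧ pos s t = x) : ∀ T, ∃ t, T ≤ t ∧ pos s t = x + dir d := by
  intro T
  obtain ⟨t, h1, h2⟩ := hx T
  have key : ∀ j : ℕ, ∃ u, T ≤ u ∧ pos s u = x ∧ cnt s u x = cnt s t x + j := by
    intro j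
    induction j with
    | zero => exact ⟨t, h1, h2, rfl⟩
    | succ j ih =>
      obtain ⟨u, k1, k2, k3⟩ := ih
      obtain ⟨v, j1, j2, j3⟩ := h.next u
      rw [k2] at j2 j3
      exact ⟨v, by omega, j2, by omega⟩
  obtain ⟨u, k1, k2, k3⟩ := key (d - (s.2 x + Fin.ofNat 4 (cnt s t x) + 1)).val
  refine ⟨u + 1, by omega, ?_⟩
  rw [pos_succ, k2, k3]
  congr 2
  generalize cnt s t x = k
  generalize s.2 x = r
  have e : Fin.ofNat 4 (k + (d - (r + Fin.ofNat 4 k + 1)).val) =
      Fin.ofNat 4 k + (d - (r + Fin.ofNat 4 k + 1)) := by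
    ext; simp [Fin.val_add]
  rw [e]; abel

theorem AllFin.recurrent {ρ : V → Fin 4} (h : AllFin ρ) (x : V) (T : ℕ) :
    ∃ t, T ≤ t ∧ walk ρ t = x := by
  have h' : AllFin ((0, ρ) : V × (V → Fin 4)).2 := h
  have h0 : ∀ T, ∃ t, T ≤ t ∧ pos (0, ρ) t = 0 := by
    intro T
    induction T with
    | zero => exact ⟨0, le_rfl, rfl⟩
    | succ T ih =>
      obtain ⟨t, h1, h2⟩ := ih
      obtain ⟨u, k1, k2⟩ := h'.again t
      exact ⟨u, by omega, k2.trans h2⟩
  have h1 : ∀ a : ℤ, ∀ T, ∃ t, T ≤ t ∧ pos (0, ρ) t = (a, 0) := by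
    intro a
    induction a using Int.induction_on with
    | zero => exact h0
    | succ a ih => simpa [dir] using h'.nbr _ 1 ih
    | pred a ih => simpa [dir, sub_eq_add_neg] using h'.nbr _ 3 ih
  have h2 : ∀ a b : ℤ, ∀ T, ∃ t, T ≤ t ∧ pos (0, ρ) t = (a, b) := by
    intro a b
    induction b using Int.induction_on with
    | zero => exact h1 a
    | succ b ih => simpa [dir] using h'.nbr _ 0 ih
    | pred b ih => simpa [dir, sub_eq_add_neg] using h'.nbr _ 2 ih
  exact h2 x.1 x.2 T

end Pool.Agent.Lib.MP_9d2e01_pr
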