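import Pool.Agent.Lib.MP_9d2e01_pr.Harris

set_option autoImplicit false
set_option linter.unusedSectionVars false
set_option linter.deprecated false

namespace Pool.Agent.Lib.MP_9d2e01_pr

open Function

/-- Hybrid configuration: the backward arcs named in `G` copy a forward arc through `σ`. -/
def hyb (π : V → V) (σ : Bool → Bool) (G : Finset V) (b : V × Bool → Bool) : V × Bool → Bool :=
  fun k => if k.2 = false ∧ k.1 ∈ G then σ (b (π k.1, true)) else b k

/-- Two paired arcs never act as alternatives. -/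
def Super (A : Set (V × Bool → Bool)) (π : V → V) : Prop :=
  ∀ (η : V × Bool → Bool) (m : V), η (π m, true) = false → η (m, false) = false →
    update η (π m, true) true ∈ A → update η (m, false) true ∈ A → η ∈ A

lemma hyb_loc {A : Set (V × Bool → Bool)} (h : Loc A) (π : V → V) (σ : Bool → Bool)
    (G : Finset V) : Loc {b | hyb π σ G b ∈ A} := by
  obtain ⟨F, hF⟩ := h
  refine ⟨F ∪ F.image (fun k => (π k.1, true)), fun ω ω' hω hA => hF _ _ (fun k hk => ?_) hA⟩
  have hk' := Finset.mem_coe.mp hk
  simp only [hyb]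
  rw [hω k (by simp [hk']), hω (π k.1, true) (Finset.mem_coe.mpr (Finset.mem_union_right _
    (Finset.mem_image_of_mem (fun k : V × Bool => (π k.1, true)) hk')))]

lemma hyb_update {π : V → V} (hπ : Injective π) (σ : Bool → Bool) {G : Finset V} {m : V}
    (hm : m ∉ G) (b : V × Bool → Bool) (x y : Bool) :
    hyb π σ G (update (update b (m, false) y) (π m, true) x) =
      update (update (hyb π σ G b) (π m, true) x) (m, false) y := by
  funext ⟨k, c⟩
  cases c
  · by_cases h : k = m
    · subst h; simp [hyb, hm]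
    · have h' : π k ≠ π m := fun e => h (hπ e)
      simp [hyb, h, h']
  · by_cases h : k = π m
    · subst h; simp [hyb]
    · simp [hyb, h]

lemma hyb_update' {π : V → V} (hπ : Injective π) (σ : Bool → Bool) {G : Finset V} {m : V}
    (b : V × Bool → Bool) (x y : Bool) :
    hyb π σ (insert m G) (update (update b (m, false) y) (π m, true) x) =
      update (update (hyb π σ G b) (π m, true) x) (m, false) (σ x) := by
  funext ⟨k, c⟩
  cases c
  · by_cases h : k = m
    · subst h; simp [hyb]
    · have h' : π k ≠ π m := fun e => h (hπ e)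
      simp [hyb, h, h']
  · by_cases h : k = π m
    · subst h; simp [hyb]
    · simp [hyb, h]

lemma hyb_step {A : Set (V × Bool → Bool)} (hl : Loc A) (hu : Up A) {π : V → V}
    (hs : Super A π) (hπ : Injective π) (σ : Bool → Bool) {G : Finset V} {m : V} (hm : m ∉ G) :
    ∃ P : Bool → Bool → ℝ, P true false + P false true ≤ P false false + P true true ∧
      pr {b | hyb π σ G b ∈ A} =
        (P true true + P true false + P false true + P false false) / 4 ∧
      pr {b | hyb π σ (insert m G) b ∈ A} = (P true (σ true) + P false (σ false)) / 2 := by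
  set W : Bool → Bool → Set (V × Bool → Bool) := fun x y =>
    {b | update (update (hyb π σ G b) (π m, true) x) (m, false) y ∈ A} with hW
  have e1 : ∀ x y, sec (sec {b | hyb π σ G b ∈ A} (π m, true) x) (m, false) y = W x y := by
    intro x y; ext b
    simp only [sec, hW, Set.mem_setOf_eq, hyb_update hπ σ hm]
  have e2 : ∀ x y, sec (sec {b | hyb π σ (insert m G) b ∈ A} (π m, true) x) (m, false) y =
      W x (σ x) := by
    intro x y; ext b
    simp only [sec, hW, Set.mem_setOf_eq, hyb_update' hπ σ]
  have l1 := hyb_loc hl π σ G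
  have l2 := hyb_loc hl π σ (insert m G)
  refine ⟨fun x y => pr (W x y), ?_, ?_, ?_⟩
  · have lw : Loc (W false true) := by rw [← e1]; exact (l1.sec _ _).sec _ _
    have h1 := pr_union_add_inter (W true false) lw
    have h2 : W true false ∪ W false true ⊆ W true true := by
      rintro b (hb | hb) <;> refine hu _ _ (fun k => ?_) hb <;>
        simp only [update_apply] <;> split_ifs <;> simp
    have h3 : W true false ∩ W false true ⊆ W false false := by
      rintro b ⟨hb1, hb2⟩
      refine hs _ m (by simp) (by simp) ?_ ?_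
      · have e : update (update (update (hyb π σ G b) (π m, true) false) (m, false) false)
            (π m, true) true =
            update (update (hyb π σ G b) (π m, true) true) (m, false) false := by
          funext k; simp only [update_apply]; split_ifs <;> simp_all
        rw [e]; exact hb1
      · rw [update_idem]; exact hb2
    have := pr_mono h2
    have := pr_mono h3
    simp only; linarith
  · rw [pr_split l1 (π m, true), pr_split (l1.sec _ true) (m, false),
      pr_split (l1.sec _ false) (m, false)]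
    simp only [e1]; ring
  · rw [pr_split l2 (π m, true), pr_split (l2.sec _ true) (m, false),
      pr_split (l2.sec _ false) (m, false)]
    simp only [e2]; ring

lemma hyb_not_le {A : Set (V × Bool → Bool)} (hl : Loc A) (hu : Up A) {π : V → V}
    (hs : Super A π) (hπ : Injective π) (G : Finset V) :
    pr {b | hyb π not G b ∈ A} ≤ pr A := by
  induction G using Finset.induction_on with
  | empty =>
    refine le_of_eq (congrArg pr ?_)
    ext b
    have : hyb π not ∅ b = b := by funext k; simp [hyb]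
    simp [this]
  | insert m G hm ih =>
    obtain ⟨P, h1, h2, h3⟩ := hyb_step hl hu hs hπ not hm
    simp only [Bool.not_true, Bool.not_false] at h3
    linarith

lemma le_hyb_id {A : Set (V × Bool → Bool)} (hl : Loc A) (hu : Up A) {π : V → V}
    (hs : Super A π) (hπ : Injective π) (G : Finset V) :
    pr A ≤ pr {b | hyb π id G b ∈ A} := by
  induction G using Finset.induction_on with
  | empty =>
    refine le_of_eq (congrArg pr ?_)
    ext b
    have : hyb π id ∅ b = b := by funext k; simp [hyb]
    simp [this]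
  | insert m G hm ih =>
    obtain ⟨P, h1, h2, h3⟩ := hyb_step hl hu hs hπ id hm
    simp only [id] at h3
    linarith

/-- All backward arcs copy a forward arc. -/
def full (π : V → V) (σ : Bool → Bool) (ω : V → Bool) : V × Bool → Bool :=
  fun k => if k.2 = false then σ (ω (π k.1)) else ω k.1

lemma pr_full {A : Set (V × Bool → Bool)} (hl : Loc A) (π : V → V) (σ : Bool → Bool) :
    ∃ G : Finset V, ∀ G', G ⊆ G' → pr {ω | full π σ ω ∈ A} = pr {b | hyb π σ G' b ∈ A} := by
  obtain ⟨F, hF⟩ := hl
  refine ⟨F.image Prod.fst, fun G' hG => ?_⟩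
  have hi : Injective (fun m : V => (m, true)) := fun _ _ h => (Prod.ext_iff.mp h).1
  have l : Loc {ω | full π σ ω ∈ A} := by
    refine ⟨F.image Prod.fst ∪ F.image (fun k => π k.1),
      fun ω ω' hω hA => hF _ _ (fun k hk => ?_) hA⟩
    have hk' := Finset.mem_coe.mp hk
    simp only [full]
    rw [hω k.1 (Finset.mem_coe.mpr (Finset.mem_union_left _ (Finset.mem_image_of_mem _ hk'))),
      hω (π k.1) (Finset.mem_coe.mpr (Finset.mem_union_right _
        (Finset.mem_image_of_mem (fun k : V × Bool => π k.1) hk')))]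
  rw [← pr_comp hi l]
  refine congrArg pr ?_
  have key : ∀ b : V × Bool → Bool, ∀ k ∈ (F : Set (V × Bool)),
      full π σ (fun m => b (m, true)) k = hyb π σ G' b k := by
    rintro b ⟨k, c⟩ hk
    have : k ∈ G' := hG (Finset.mem_image_of_mem Prod.fst (Finset.mem_coe.mp hk))
    cases c <;> simp [full, hyb, this]
  ext b
  exact ⟨fun h => hF _ _ (key b) h, fun h => hF _ _ (fun k hk => (key b k hk).symm) h⟩

lemma full_le {A : Set (V × Bool → Bool)} (hl : Loc A) (hu : Up A) {π : V → V}
    (hs : Super A π) (hπ : Injective π) (hs' : Super A id) :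
    pr {ω | full π not ω ∈ A} ≤ pr {ω | full id id ω ∈ A} := by
  obtain ⟨G, hG⟩ := pr_full hl π not
  obtain ⟨G', hG'⟩ := pr_full hl id id
  rw [hG G subset_rfl, hG' G' subset_rfl]
  exact (hyb_not_le hl hu hs hπ G).trans (le_hyb_id hl hu hs' injective_id G')

/-- Direction flag of an arc. -/
def up (p q : V) : Bool := decide (p.1 + p.2 < q.1 + q.2)

/-- Directed step. -/
def DStep (η : V × Bool → Bool) (R : Set V) (p q : V) : Prop :=
  nb p q ∧ p ∈ R ∧ q ∈ R ∧ η (p + q, up p q) = true

/-- Directed escape event. -/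
def DReach (φ : V) (s : ℕ) : Set (V × Bool → Bool) :=
  {η | ∃ q, q ∉ Qb s ∧ Relation.ReflTransGen (DStep η (Bb s)) φ q}

lemma DReach.loc (φ : V) (s : ℕ) : Loc (DReach φ s) := by
  refine Loc.of_finite (S := Rect (-6 * s - 2) (6 * s) (-6 * s - 2) (6 * s) ×ˢ Set.univ) ?_
    ((Rect.finite _ _ _ _).prod Set.finite_univ)
  rintro η η' h ⟨q, h1, h2⟩
  refine ⟨q, h1, rtg_mono (fun a b hab => ⟨hab.1, hab.2.1, hab.2.2.1, ?_⟩) h2⟩
  rw [← h _ ⟨?_, trivial⟩]
  · exact hab.2.2.2
  · have h3 := hab.2.1
    have h4 := hab.2.2.1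
    simp only [Bb, Rect, Set.mem_setOf_eq, Prod.fst_add, Prod.snd_add] at h3 h4 ⊢; omega

lemma DReach.up (φ : V) (s : ℕ) : Up (DReach φ s) := by
  rintro η η' h ⟨q, h1, h2⟩
  exact ⟨q, h1, rtg_mono (fun a b hab => ⟨hab.1, hab.2.1, hab.2.2.1, h _ hab.2.2.2⟩) h2⟩

lemma extra_arc {η : V × Bool → Bool} {R : Set V} {k : V × Bool} {a q : V}
    (h : Relation.ReflTransGen (DStep (update η k true) R) a q) :
    Relation.ReflTransGen (DStep η R) a q ∨ ∃ u u', nb u u' ∧ (u + u', up u u') = k ∧
      Relation.ReflTransGen (DStep η R) a u ∧ Relation.ReflTransGen (DStep η R) u' q := by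
  induction h with
  | refl => exact Or.inl Relation.ReflTransGen.refl
  | @tail b c _ hs ih =>
    by_cases hk : (b + c, up b c) = k
    · rcases ih with ih | ⟨u, u', h1, h2, h3, _⟩
      · exact Or.inr ⟨b, c, hs.1, hk, ih, Relation.ReflTransGen.refl⟩
      · refine Or.inr ⟨u, u', h1, h2, h3, ?_⟩
        have e := h2.trans hk.symm
        have hn := hs.1
        simp only [Prod.ext_iff, up, decide_eq_decide, Prod.fst_add, Prod.snd_add, nb] at e h1 hn
        have : u' = c := by rw [Prod.ext_iff]; omega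
        rw [this]
    · have hs' : DStep η R b c := ⟨hs.1, hs.2.1, hs.2.2.1, by
        have := hs.2.2.2; rwa [update_of_ne hk] at this⟩
      rcases ih with ih | ⟨u, u', h1, h2, h3, h4⟩
      · exact Or.inl (ih.tail hs')
      · exact Or.inr ⟨u, u', h1, h2, h3, h4.tail hs'⟩

lemma DReach.arcs {φ : V} {s : ℕ} {η : V × Bool → Bool} (h0 : η ∉ DReach φ s) {k : V × Bool}
    (h : update η k true ∈ DReach φ s) :
    ∃ u u' q, nb u u' ∧ (u + u', MP_9d2e01_pr.up u u') = k ∧
      u ∈ {z | Relation.ReflTransGen (DStep η (Bb s)) φ z} ∧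
      Conn Set.univ {z | Relation.ReflTransGen (DStep η (Bb s)) φ z} φ u ∧
      u' ∉ {z | Relation.ReflTransGen (DStep η (Bb s)) φ z} ∧ q ∉ Qb s ∧
      Conn Set.univ {z | Relation.ReflTransGen (DStep η (Bb s)) φ z}ᶜ u' q := by
  obtain ⟨q, hq, hp⟩ := h
  rcases extra_arc hp with h1 | ⟨u, u', h1, h2, h3, h4⟩
  · exact absurd ⟨q, hq, h1⟩ h0
  refine ⟨u, u', q, h1, h2, h3, ?_, fun h5 => h0 ⟨q, hq, Relation.ReflTransGen.trans h5 h4⟩,
    hq, ?_⟩
  · clear h1 h2
    induction h3 with
    | refl => exact Conn.refl _ _ _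
    | tail k1 k2 ih => exact ih.tail k2.1 k1 (k1.tail k2) trivial
  · clear h1 h2
    induction h4 using Relation.ReflTransGen.head_induction_on with
    | refl => exact Conn.refl _ _ _
    | head k1 k2 ih =>
      refine Relation.ReflTransGen.head ⟨k1.1, fun h5 => h0 ⟨q, hq, ?_⟩,
        fun h5 => h0 ⟨q, hq, ?_⟩, trivial⟩ ih
      · exact (Relation.ReflTransGen.tail h5 k1).trans k2
      · exact Relation.ReflTransGen.trans h5 k2

lemma DReach.super_id (φ : V) (s : ℕ) : Super (DReach φ s) id := by
  intro η m _ _ h1 h2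
  by_contra h0
  obtain ⟨u, u', _, a1, a2, a3, _, a5, _, _⟩ := DReach.arcs h0 h1
  obtain ⟨v, v', _, b1, b2, b3, _, _, _, _⟩ := DReach.arcs h0 h2
  simp only [Prod.ext_iff, MP_9d2e01_pr.up, decide_eq_true_eq, decide_eq_false_iff_not,
    Prod.fst_add, Prod.snd_add, nb, id] at a1 a2 b1 b2
  have : u' = v := by rw [Prod.ext_iff]; omega
  exact a5 (this ▸ b3)

/-- Pairing of the arcs around a lattice site. -/
def par (m : V) : V := if m.1 % 2 = 1 then (m.1, m.2 - 2) else (m.1 + 2, m.2)

lemma par_inj : Injective par := by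
  intro m m' h
  unfold par at h
  rw [Prod.ext_iff]
  split_ifs at h <;> simp only [Prod.mk.injEq] at h <;> omega

lemma DReach.super_par (φ : V) (s : ℕ) : Super (DReach φ s) par := by
  intro η m _ _ h1 h2
  by_contra h0
  obtain ⟨u, u', q, a1, a2, a3, a4, a5, a6, a7⟩ := DReach.arcs h0 h1
  obtain ⟨v, v', q', b1, b2, b3, b4, b5, b6, b7⟩ := DReach.arcs h0 h2
  have hS : {z | Relation.ReflTransGen (DStep η (Bb s)) φ z} ⊆ Qb s := by
    intro z hz; by_contra hc; exact h0 ⟨z, hc, hz⟩
  obtain ⟨x, y⟩ := u
  simp only [Prod.ext_iff, MP_9d2e01_pr.up, decide_eq_true_eq, decide_eq_false_iff_not,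
    Prod.fst_add, Prod.snd_add, nb, par] at a1 a2 b1 b2
  by_cases hm : m.1 % 2 = 1
  · simp only [hm, if_true] at a2
    have e1 : u' = (x + 1, y) := by rw [Prod.ext_iff]; simp only; omega
    have e2 : v = (x + 1, y + 1) := by rw [Prod.ext_iff]; simp only; omega
    have e3 : v' = (x, y + 1) := by rw [Prod.ext_iff]; simp only; omega
    subst e1 e2 e3
    exact pinch hS a3 (a4.symm.trans b4) b7 b5 b6 a7 a5 a6
  · simp only [hm, if_false] at a2
    have e0 : ((x, y) : V) = (x - 1 + 1, y) := by simp
    have e1 : u' = (x - 1 + 1, y + 1) := by rw [Prod.ext_iff]; simp only; omega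
    have e2 : v = (x - 1, y + 1) := by rw [Prod.ext_iff]; simp only; omega
    have e3 : v' = (x - 1, y) := by rw [Prod.ext_iff]; simp only; omega
    rw [e0] at a3 a4
    subst e1 e2 e3
    exact pinch' hS a3 (a4.symm.trans b4) a7 a5 a6 b7 b5 b6

/-- The directed model with opposite arcs has small clusters. -/
theorem anti_small (ε : ℝ) (hε : 0 < ε) : ∃ s : ℕ, 1 ≤ s ∧ ∀ p ∈ Rect (-1) 0 (-1) 0,
    pr {ω | full par not ω ∈ DReach p s} ≤ ε := by
  obtain ⟨s, hs, h⟩ := harris_small ε hε
  refine ⟨s, hs, fun p hp => ?_⟩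
  refine (full_le (DReach.loc p s) (DReach.up p s) (DReach.super_par p s) par_inj
    (DReach.super_id p s)).trans ((pr_mono ?_).trans (h p hp))
  rintro ω ⟨q, h1, h2⟩
  refine ⟨p, q, rfl, h1, Rect.sub (by omega) (by omega) (by omega) (by omega) hp,
    rtg_mono (fun a b hab => ⟨hab.1, hab.2.1, hab.2.2.1, ?_⟩) h2⟩
  have := hab.2.2.2
  simpa [full, op] using this

end Pool.Agent.Lib.MP_9d2e01_pr
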