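import Mathlib

set_option autoImplicit false
set_option linter.unusedSectionVars false
set_option linter.deprecated false

namespace Pool.Agent.Lib.MP_9d2e01_pr

open MeasureTheory ProbabilityTheory

section general

variable {ι α : Type} [Fintype α] [Nonempty α] [MeasurableSpace α] [DiscreteMeasurableSpace α]

/-- Product of uniform laws. -/
noncomputable def mu (ι α : Type) [Fintype α] [Nonempty α] [MeasurableSpace α] :
    Measure (ι → α) :=
  Measure.infinitePi (fun _ : ι => uniformOn (Set.univ : Set α))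

instance : IsProbabilityMeasure (mu ι α) := by unfold mu; infer_instance

/-- Real valued probability. -/
noncomputable def pr (A : Set (ι → α)) : ℝ := (mu ι α).real A

/-- The event only depends on the coordinates in `S`. -/
def Dep (A : Set (ι → α)) (S : Set ι) : Prop :=
  ∀ ω ω' : ι → α, (∀ i ∈ S, ω i = ω' i) → ω ∈ A → ω' ∈ A

/-- The event only depends on finitely many coordinates. -/
def Loc (A : Set (ι → α)) : Prop := ∃ F : Finset ι, Dep A (F : Set ι)

omit [Fintype α] [Nonempty α] [MeasurableSpace α] [DiscreteMeasurableSpace α] in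
lemma Dep.mono {A : Set (ι → α)} {S T : Set ι} (h : Dep A S) (hST : S ⊆ T) : Dep A T :=
  fun ω ω' hω => h ω ω' (fun i hi => hω i (hST hi))

omit [Fintype α] [Nonempty α] [MeasurableSpace α] [DiscreteMeasurableSpace α] in
lemma Dep.inter_dep {A : Set (ι → α)} {S T : Set ι} (h : Dep A S) (h' : Dep A T) :
    Dep A (S ∩ T) := by
  classical
  intro ω ω' hω hA
  have h1 : (fun i => if i ∈ S then ω i else ω' i) ∈ A :=
    h ω _ (fun i hi => by simp [hi]) hA
  refine h' _ ω' (fun i hi => ?_) h1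
  by_cases hs : i ∈ S
  · simp [hs, hω i ⟨hs, hi⟩]
  · simp [hs]

omit [Fintype α] [Nonempty α] [MeasurableSpace α] [DiscreteMeasurableSpace α] in
lemma Dep.compl {A : Set (ι → α)} {S : Set ι} (h : Dep A S) : Dep Aᶜ S :=
  fun ω ω' hω hA hA' => hA (h ω' ω (fun i hi => (hω i hi).symm) hA')

omit [Fintype α] [Nonempty α] [MeasurableSpace α] [DiscreteMeasurableSpace α] in
lemma Dep.inter {A B : Set (ι → α)} {S : Set ι} (h : Dep A S) (h' : Dep B S) :
    Dep (A ∩ B) S :=
  fun ω ω' hω hA => ⟨h ω ω' hω hA.1, h' ω ω' hω hA.2⟩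

omit [Fintype α] [Nonempty α] [MeasurableSpace α] [DiscreteMeasurableSpace α] in
lemma Loc.of_finite {A : Set (ι → α)} {S : Set ι} (h : Dep A S) (hS : S.Finite) : Loc A :=
  ⟨hS.toFinset, by simpa using h⟩

omit [Fintype α] [Nonempty α] [MeasurableSpace α] [DiscreteMeasurableSpace α] in
lemma Loc.compl {A : Set (ι → α)} (h : Loc A) : Loc Aᶜ := by
  obtain ⟨F, hF⟩ := h
  exact ⟨F, hF.compl⟩

omit [Fintype α] [Nonempty α] [MeasurableSpace α] [DiscreteMeasurableSpace α] in
lemma Loc.inter {A B : Set (ι → α)} (h : Loc A) (h' : Loc B) : Loc (A ∩ B) := by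
  classical
  obtain ⟨F, hF⟩ := h
  obtain ⟨G, hG⟩ := h'
  exact ⟨F ∪ G, (hF.mono (by simp)).inter (hG.mono (by simp))⟩

omit [Fintype α] [MeasurableSpace α] [DiscreteMeasurableSpace α] in
lemma Dep.eq_preimage {A : Set (ι → α)} {F : Finset ι} (h : Dep A (F : Set ι)) :
    A = (fun (ω : ι → α) (i : F) => ω i) ⁻¹' ((fun (ω : ι → α) (i : F) => ω i) '' A) := by
  ext ω
  constructor
  · intro hω; exact ⟨ω, hω, rfl⟩
  · rintro ⟨ω', hω', he⟩
    exact h ω' ω (fun i hi => congrFun he ⟨i, hi⟩) hω'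

lemma Loc.measurableSet {A : Set (ι → α)} (h : Loc A) : MeasurableSet A := by
  obtain ⟨F, hF⟩ := h
  rw [hF.eq_preimage]
  exact (measurable_pi_lambda _ (fun i => measurable_pi_apply _))
    (Set.toFinite _).measurableSet

lemma pr_nonneg (A : Set (ι → α)) : 0 ≤ pr A := measureReal_nonneg

lemma pr_mono {A B : Set (ι → α)} (h : A ⊆ B) : pr A ≤ pr B := measureReal_mono h

lemma pr_univ : pr (Set.univ : Set (ι → α)) = 1 := by simp [pr]

lemma pr_le_one (A : Set (ι → α)) : pr A ≤ 1 := by
  rw [← pr_univ (ι := ι) (α := α)]; exact pr_mono (Set.subset_univ _)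

lemma pr_empty : pr (∅ : Set (ι → α)) = 0 := by simp [pr]

lemma pr_union_le (A B : Set (ι → α)) : pr (A ∪ B) ≤ pr A + pr B := measureReal_union_le _ _

lemma pr_union_add_inter (A : Set (ι → α)) {B : Set (ι → α)} (h : Loc B) :
    pr (A ∪ B) + pr (A ∩ B) = pr A + pr B := measureReal_union_add_inter h.measurableSet

lemma pr_compl {A : Set (ι → α)} (h : Loc A) : pr Aᶜ = 1 - pr A := by
  unfold pr
  rw [measureReal_compl h.measurableSet]; simp

lemma pr_indep {A B : Set (ι → α)} {S T : Set ι} (hA : Dep A S) (hB : Dep B T)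
    (hST : Disjoint S T) (lA : Loc A) (lB : Loc B) : pr (A ∩ B) = pr A * pr B := by
  classical
  obtain ⟨F, hF⟩ := lA
  obtain ⟨G, hG⟩ := lB
  have hF' : Dep A ((F.filter (· ∈ S) : Finset ι) : Set ι) :=
    (hA.inter_dep hF).mono (fun i hi => by simp [hi.1, Finset.mem_coe.mp hi.2])
  have hG' : Dep B ((G.filter (· ∈ T) : Finset ι) : Set ι) :=
    (hB.inter_dep hG).mono (fun i hi => by simp [hi.1, Finset.mem_coe.mp hi.2])
  have hd : Disjoint (F.filter (· ∈ S)) (G.filter (· ∈ T)) := by
    rw [Finset.disjoint_left]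
    intro i hi hi'
    exact Set.disjoint_left.mp hST (Finset.mem_filter.mp hi).2 (Finset.mem_filter.mp hi').2
  have hind : iIndepFun (fun (i : ι) (ω : ι → α) => ω i) (mu ι α) :=
    iIndepFun_infinitePi (X := fun _ a => a) (fun _ => measurable_id)
  have h2 := hind.indepFun_finset _ _ hd (fun i => measurable_pi_apply i)
  rw [indepFun_iff_measure_inter_preimage_eq_mul] at h2
  have h3 := h2 ((fun (ω : ι → α) (i : (F.filter (· ∈ S))) => ω i) '' A)
    ((fun (ω : ι → α) (i : (G.filter (· ∈ T))) => ω i) '' B)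
    (Set.toFinite _).measurableSet (Set.toFinite _).measurableSet
  rw [← hF'.eq_preimage, ← hG'.eq_preimage] at h3
  unfold pr Measure.real
  rw [h3, ENNReal.toReal_mul]

lemma pr_comp {κ : Type} {f : κ → ι} (hf : Function.Injective f) {A : Set (κ → α)}
    (h : Loc A) : pr {ω : ι → α | (fun k => ω (f k)) ∈ A} = pr A := by
  have h1 : (mu ι α).map (fun ω k => ω (f k)) = mu κ α :=
    Measure.map_infinitePi_infinitePi_of_inj hf
  unfold pr
  rw [← h1, map_measureReal_apply (by fun_prop) h.measurableSet]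
  rfl

lemma pr_sum_le {β : Type} (s : Finset β) (A : β → Set (ι → α)) (X : Set (ι → α))
    (hl : ∀ b ∈ s, Loc (A b)) (hd : (s : Set β).PairwiseDisjoint A) (hX : ∀ b ∈ s, A b ⊆ X) :
    ∑ b ∈ s, pr (A b) ≤ pr X := by
  unfold pr
  rw [← measureReal_biUnion_finset hd (fun b hb => (hl b hb).measurableSet)]
  exact measureReal_mono (Set.iUnion₂_subset hX)

lemma pr_le_sum {β : Type} (s : Finset β) (A : β → Set (ι → α)) (X : Set (ι → α))
    (hX : X ⊆ ⋃ b ∈ s, A b) : pr X ≤ ∑ b ∈ s, pr (A b) :=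
  (pr_mono hX).trans (measureReal_biUnion_finset_le s A)

end general

section bool

variable {ι : Type}

lemma pr_coord (i : ι) (b : Bool) : pr {ω : ι → Bool | ω i = b} = 1 / 2 := by
  have h := (measurePreserving_eval_infinitePi
    (fun _ : ι => uniformOn (Set.univ : Set Bool)) i).measure_preimage
    (s := ({b} : Set Bool)) (MeasurableSet.singleton b).nullMeasurableSet
  unfold pr Measure.real mu
  have h2 : {ω : ι → Bool | ω i = b} = Function.eval i ⁻¹' ({b} : Set Bool) := rfl
  rw [h2, h, uniformOn_univ]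
  simp

lemma pr_not {A : Set (ι → Bool)} (h : Loc A) :
    pr {ω : ι → Bool | (fun i => !ω i) ∈ A} = pr A := by
  have h0 : (uniformOn (Set.univ : Set Bool)).map (fun b => !b) = uniformOn Set.univ := by
    apply Measure.ext_of_singleton
    intro b
    rw [Measure.map_apply (by fun_prop) (MeasurableSet.singleton b), uniformOn_univ,
      uniformOn_univ]
    have : (fun b => !b) ⁻¹' {b} = {!b} := by
      ext c; cases b <;> cases c <;> simp
    rw [this]; simp
  have h1 : (mu ι Bool).map (fun ω i => !ω i) = mu ι Bool := by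
    unfold mu
    rw [Measure.infinitePi_map_pi (f := fun _ b => !b) _ (fun _ => by fun_prop)]
    simp only [h0]
  unfold pr
  rw [← h1, map_measureReal_apply (by fun_prop) h.measurableSet, h1]
  rfl

variable [DecidableEq ι]

/-- Section of an event at one coordinate. -/
def sec (A : Set (ι → Bool)) (i : ι) (b : Bool) : Set (ι → Bool) :=
  {ω | Function.update ω i b ∈ A}

lemma Dep.sec {A : Set (ι → Bool)} {S : Set ι} (h : Dep A S) (i : ι) (b : Bool) :
    Dep (sec A i b) (S \ {i}) := by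
  intro ω ω' hω hA
  refine h _ _ (fun j hj => ?_) hA
  by_cases hji : j = i
  · subst hji; simp
  · simp [Function.update_of_ne hji, hω j ⟨hj, hji⟩]

lemma Loc.sec {A : Set (ι → Bool)} (h : Loc A) (i : ι) (b : Bool) : Loc (sec A i b) := by
  obtain ⟨F, hF⟩ := h
  exact ⟨F, (hF.sec i b).mono Set.diff_subset⟩

lemma pr_split {A : Set (ι → Bool)} (h : Loc A) (i : ι) :
    pr A = (pr (sec A i true) + pr (sec A i false)) / 2 := by
  have hc : ∀ b : Bool, Dep {ω : ι → Bool | ω i = b} {i} := by
    intro b ω ω' hω hA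
    have := hω i rfl
    simp only [Set.mem_setOf_eq] at hA ⊢
    rw [← this, hA]
  have hl : ∀ b : Bool, Loc {ω : ι → Bool | ω i = b} :=
    fun b => Loc.of_finite (hc b) (Set.finite_singleton i)
  have h1 : ∀ b : Bool, pr (A ∩ {ω | ω i = b}) = pr (sec A i b) / 2 := by
    intro b
    have e : A ∩ {ω | ω i = b} = sec A i b ∩ {ω | ω i = b} := by
      ext ω
      simp only [sec, Set.mem_inter_iff, Set.mem_setOf_eq]
      constructor
      · rintro ⟨h1, h2⟩; exact ⟨by rw [← h2]; simpa using h1, h2⟩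
      · rintro ⟨h1, h2⟩; exact ⟨by rw [← h2] at h1; simpa using h1, h2⟩
    have hu : Dep A Set.univ := fun ω ω' hω hA => by
      have : ω = ω' := funext fun j => hω j trivial
      rwa [← this]
    rw [e, pr_indep (hu.sec i b) (hc b) (by simp) (h.sec i b) (hl b), pr_coord]
    ring
  have h2 := pr_union_add_inter (A ∩ {ω | ω i = true}) (h.inter (hl false))
  have e1 : A ∩ {ω | ω i = true} ∪ A ∩ {ω | ω i = false} = A := by
    ext ω; cases hω : ω i <;> simp [hω]
  have e2 : A ∩ {ω | ω i = true} ∩ (A ∩ {ω | ω i = false}) = ∅ := by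
    ext ω; cases hω : ω i <;> simp [hω]
  rw [e1, e2, pr_empty, h1, h1] at h2
  linarith

/-- Increasing events. -/
def Up (A : Set (ι → Bool)) : Prop :=
  ∀ ω ω' : ι → Bool, (∀ i, ω i = true → ω' i = true) → ω ∈ A → ω' ∈ A

omit [DecidableEq ι] in
lemma Up.inter {A B : Set (ι → Bool)} (h : Up A) (h' : Up B) : Up (A ∩ B) :=
  fun ω ω' hω hA => ⟨h ω ω' hω hA.1, h' ω ω' hω hA.2⟩

lemma Up.sec {A : Set (ι → Bool)} (h : Up A) (i : ι) (b : Bool) : Up (sec A i b) := by
  intro ω ω' hω hA
  refine h _ _ (fun j => ?_) hA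
  by_cases hji : j = i
  · subst hji; simp
  · simpa [Function.update_of_ne hji] using hω j

lemma Up.sec_sub {A : Set (ι → Bool)} (h : Up A) (i : ι) :
    MP_9d2e01_pr.sec A i false ⊆ MP_9d2e01_pr.sec A i true := by
  intro ω hA
  refine h _ _ (fun j => ?_) hA
  by_cases hji : j = i
  · subst hji; simp
  · simp [Function.update_of_ne hji]

lemma harris_aux (F : Finset ι) : ∀ A B : Set (ι → Bool), Dep A (F : Set ι) →
    Dep B (F : Set ι) → Up A → Up B → pr A * pr B ≤ pr (A ∩ B) := by
  induction F using Finset.induction_on with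
  | empty =>
    intro A B hA hB _ _
    rw [pr_indep hA hB (by simp) ⟨∅, hA⟩ ⟨∅, hB⟩]
  | insert i F hi ih =>
    intro A B hA hB uA uB
    have d : ∀ (C : Set (ι → Bool)) (b : Bool), Dep C ((insert i F : Finset ι) : Set ι) →
        Dep (sec C i b) (F : Set ι) := by
      intro C b hC
      refine (hC.sec i b).mono ?_
      intro j hj
      have h1 := hj.1
      have h2 := hj.2
      simp only [Finset.coe_insert, Set.mem_insert_iff, Set.mem_singleton_iff] at h1 h2
      tauto
    have h1 := ih _ _ (d A true hA) (d B true hB) (uA.sec i true) (uB.sec i true)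
    have h0 := ih _ _ (d A false hA) (d B false hB) (uA.sec i false) (uB.sec i false)
    have ha := pr_mono (uA.sec_sub i)
    have hb := pr_mono (uB.sec_sub i)
    rw [pr_split ⟨_, hA⟩ i, pr_split ⟨_, hB⟩ i, pr_split ⟨_, hA.inter hB⟩ i]
    have e : ∀ b, sec (A ∩ B) i b = sec A i b ∩ sec B i b := fun b => rfl
    rw [e, e]
    nlinarith [mul_nonneg (sub_nonneg.mpr ha) (sub_nonneg.mpr hb)]

/-- Harris inequality. -/
lemma harris {A B : Set (ι → Bool)} (lA : Loc A) (lB : Loc B) (uA : Up A) (uB : Up B) :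
    pr A * pr B ≤ pr (A ∩ B) := by
  obtain ⟨F, hF⟩ := lA
  obtain ⟨G, hG⟩ := lB
  exact harris_aux (F ∪ G) A B (hF.mono (by simp)) (hG.mono (by simp)) uA uB

end bool

end Pool.Agent.Lib.MP_9d2e01_pr
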