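import Pool.Agent.Lib.MP_9d2e01_pr.Dual
import Pool.Agent.Lib.MP_9d2e01_pr.Prob

set_option autoImplicit false
set_option linter.unusedSectionVars false
set_option linter.deprecated false

namespace Pool.Agent.Lib.MP_9d2e01_pr

/-- Edges that are present. -/
def op (ω : V → Bool) : Set V := {m | ω m = true}

/-- Dual configuration. -/
def du (ω : V → Bool) : V → Bool := fun m => !ω (m + (1, 1))

/-- Connection event. -/
def Cr (A B R : Set V) : Set (V → Bool) :=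
  {ω | ∃ a b, a ∈ A ∧ b ∈ B ∧ a ∈ R ∧ Conn (op ω) R a b}

def Hc (x0 x1 y0 y1 : ℤ) : Set (V → Bool) :=
  Cr {p | p.1 = x0} {p | p.1 = x1} (Rect x0 x1 y0 y1)

def Vc (x0 x1 y0 y1 : ℤ) : Set (V → Bool) :=
  Cr {p | p.2 = y0} {p | p.2 = y1} (Rect x0 x1 y0 y1)

lemma Conn.congr {ω ω' : V → Bool} {x0 x1 y0 y1 : ℤ}
    (h : ∀ m ∈ Rect (2 * x0) (2 * x1) (2 * y0) (2 * y1), ω m = ω' m) {a b : V}
    (hc : Conn (op ω) (Rect x0 x1 y0 y1) a b) : Conn (op ω') (Rect x0 x1 y0 y1) a b := by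
  refine hc.mono subset_rfl (fun p q _ hp hq he => ?_)
  have := h (p + q) (by
    simp only [Rect, Set.mem_setOf_eq, Prod.fst_add, Prod.snd_add] at hp hq ⊢; omega)
  simp only [op, Set.mem_setOf_eq] at he ⊢
  rw [← this, he]

lemma Conn.up {ω ω' : V → Bool} (h : ∀ m, ω m = true → ω' m = true) {R : Set V} {a b : V}
    (hc : Conn (op ω) R a b) : Conn (op ω') R a b :=
  hc.mono subset_rfl (fun _ _ _ _ _ he => h _ he)

lemma Cr.dep (A B : Set V) (x0 x1 y0 y1 : ℤ) :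
    Dep (Cr A B (Rect x0 x1 y0 y1)) (Rect (2 * x0) (2 * x1) (2 * y0) (2 * y1)) := by
  rintro ω ω' h ⟨a, b, h1, h2, h3, h4⟩
  exact ⟨a, b, h1, h2, h3, h4.congr h⟩

lemma Cr.loc (A B : Set V) (x0 x1 y0 y1 : ℤ) : Loc (Cr A B (Rect x0 x1 y0 y1)) :=
  Loc.of_finite (Cr.dep A B x0 x1 y0 y1) (Rect.finite _ _ _ _)

lemma Cr.up (A B R : Set V) : Up (Cr A B R) := by
  rintro ω ω' h ⟨a, b, h1, h2, h3, h4⟩
  exact ⟨a, b, h1, h2, h3, h4.up h⟩

/-- Lattice symmetries together with their action on edge names. -/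
structure Sym (g G : V → V) : Prop where
  nb : ∀ p q, nb p q → nb (g p) (g q)
  inj : Function.Injective G
  add : ∀ p q, G (p + q) = g p + g q

lemma Sym.conn {g G : V → V} (h : Sym g G) {ω : V → Bool} {R R' : Set V}
    (hR : ∀ p ∈ R, g p ∈ R') {a b : V} (hc : Conn (op (fun m => ω (G m))) R a b) :
    Conn (op ω) R' (g a) (g b) :=
  hc.map g h.nb hR (fun p q _ _ _ he => by
    simp only [op, Set.mem_setOf_eq] at he ⊢; rwa [← h.add])

lemma Sym.pr_le {g G : V → V} (h : Sym g G) {A B R A' B' R' : Set V} (hl : Loc (Cr A B R))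
    (hA : ∀ p ∈ A, g p ∈ A') (hB : ∀ p ∈ B, g p ∈ B') (hR : ∀ p ∈ R, g p ∈ R') :
    pr (Cr A B R) ≤ pr (Cr A' B' R') := by
  rw [← pr_comp h.inj hl]
  refine pr_mono ?_
  rintro ω ⟨a, b, h1, h2, h3, h4⟩
  exact ⟨g a, g b, hA _ h1, hB _ h2, hR _ h3, h.conn hR h4⟩

lemma sym_shift (s t : ℤ) :
    Sym (fun p => (p.1 + s, p.2 + t)) (fun m => (m.1 + 2 * s, m.2 + 2 * t)) := by
  refine ⟨?_, ?_, ?_⟩
  · intro p q h; simp only [nb] at h ⊢; omega
  · intro p q h; simp only [Prod.mk.injEq] at h; ext <;> omega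
  · intro p q; ext <;> simp <;> ring

lemma sym_swap (s t : ℤ) :
    Sym (fun p => (p.2 + s, p.1 + t)) (fun m => (m.2 + 2 * s, m.1 + 2 * t)) := by
  refine ⟨?_, ?_, ?_⟩
  · intro p q h; simp only [nb] at h ⊢; omega
  · intro p q h; simp only [Prod.mk.injEq] at h; ext <;> omega
  · intro p q; ext <;> simp <;> ring

lemma sym_reflx (s : ℤ) : Sym (fun p => (s - p.1, p.2)) (fun m => (2 * s - m.1, m.2)) := by
  refine ⟨?_, ?_, ?_⟩
  · intro p q h; simp only [nb] at h ⊢; omega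
  · intro p q h; simp only [Prod.mk.injEq] at h; ext <;> omega
  · intro p q; ext <;> simp; ring

lemma sym_refly (s : ℤ) : Sym (fun p => (p.1, s - p.2)) (fun m => (m.1, 2 * s - m.2)) := by
  refine ⟨?_, ?_, ?_⟩
  · intro p q h; simp only [nb] at h ⊢; omega
  · intro p q h; simp only [Prod.mk.injEq] at h; ext <;> omega
  · intro p q; ext <;> simp; ring

/-- Crossing probability of a rectangle of width `w` and height `h`, bottom to top. -/
noncomputable def vv (w h : ℤ) : ℝ := pr (Vc 0 w 0 h)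

lemma Vc_eq {x0 x1 y0 y1 w h : ℤ} (hw : x1 - x0 = w) (hh : y1 - y0 = h) :
    pr (Vc x0 x1 y0 y1) = vv w h := by
  apply le_antisymm
  · refine (sym_shift (-x0) (-y0)).pr_le (Cr.loc _ _ _ _ _ _) ?_ ?_ ?_ <;>
      intro p hp <;> simp only [Rect, Set.mem_setOf_eq] at hp ⊢ <;> omega
  · refine (sym_shift x0 y0).pr_le (Cr.loc _ _ _ _ _ _) ?_ ?_ ?_ <;>
      intro p hp <;> simp only [Rect, Set.mem_setOf_eq] at hp ⊢ <;> omega

lemma Hc_eq {x0 x1 y0 y1 w h : ℤ} (hw : y1 - y0 = w) (hh : x1 - x0 = h) :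
    pr (Hc x0 x1 y0 y1) = vv w h := by
  apply le_antisymm
  · refine (sym_swap (-y0) (-x0)).pr_le (Cr.loc _ _ _ _ _ _) ?_ ?_ ?_ <;>
      intro p hp <;> simp only [Rect, Set.mem_setOf_eq] at hp ⊢ <;> omega
  · refine (sym_swap x0 y0).pr_le (Cr.loc _ _ _ _ _ _) ?_ ?_ ?_ <;>
      intro p hp <;> simp only [Rect, Set.mem_setOf_eq] at hp ⊢ <;> omega

lemma pr_du {A : Set (V → Bool)} (h : Loc A) : pr {ω | du ω ∈ A} = pr A := by
  have hi : Function.Injective (fun m : V => m + (1, 1)) := add_left_injective _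
  have hl : Loc {ω : V → Bool | (fun i => !ω i) ∈ A} := by
    obtain ⟨F, hF⟩ := h
    exact ⟨F, fun ω ω' hω hA => hF _ _ (fun i hi => by simp [hω i hi]) hA⟩
  rw [← pr_not h, ← pr_comp hi hl]
  rfl

lemma Loc.du {A : Set (V → Bool)} (h : Loc A) : Loc {ω | du ω ∈ A} := by
  obtain ⟨F, hF⟩ := h
  refine ⟨F.image (fun m => m + (1, 1)), fun ω ω' hω hA => hF _ _ (fun i hi => ?_) hA⟩
  simp only [MP_9d2e01_pr.du]
  rw [hω _ (Finset.mem_coe.mpr (Finset.mem_image_of_mem _ (Finset.mem_coe.mp hi)))]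

lemma block_H {ω : V → Bool} {x0 x1 y0 y1 : ℤ} (h : ω ∈ Hc x0 x1 y0 y1) {D : Set V}
    (hD : ∀ p ∈ D, x0 ≤ p.1 ∧ p.1 < x1) {p q : V} (hc : Conn (op (du ω)) D p q) (hq : q ∈ D)
    (h1 : p.2 < y0) (h2 : y1 ≤ q.2) : False := by
  obtain ⟨a, b, ha, hb, haR, hab⟩ := h
  obtain ⟨N, hN⟩ := hab.lr haR subset_rfl ha hb
  have e := hN.conn_dual hD (fun p q _ _ _ he => by
    simpa [op, du] using he) hc
  have e1 := hN.low p.1 p.2 h1
  have e2 := hN.high q.1 q.2 h2 (by have := hD q hq; omega) (by have := hD q hq; omega)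
  have e3 : N (p.1, p.2) = N p := rfl
  have e4 : N (q.1, q.2) = N q := rfl
  omega

lemma block_V {ω : V → Bool} {x0 x1 y0 y1 : ℤ} (h : ω ∈ Vc x0 x1 y0 y1) {D : Set V}
    (hD : ∀ p ∈ D, y0 ≤ p.2 ∧ p.2 < y1) {p q : V} (hc : Conn (op (du ω)) D p q) (hq : q ∈ D)
    (h1 : p.1 < x0) (h2 : x1 ≤ q.1) : False := by
  have hn : ∀ p q : V, nb p q → nb p.swap q.swap := by
    intro p q h; simp only [nb, Prod.fst_swap, Prod.snd_swap] at h ⊢; omega
  refine block_H (ω := fun m => ω m.swap) (x0 := y0) (x1 := y1) (y0 := x0) (y1 := x1)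
    (D := Prod.swap ⁻¹' D) (p := p.swap) (q := q.swap) ?_ ?_ ?_ ?_ h1 h2
  · obtain ⟨a, b, ha, hb, haR, hab⟩ := h
    refine ⟨a.swap, b.swap, ha, hb, ⟨haR.2.2.1, haR.2.2.2, haR.1, haR.2.1⟩, ?_⟩
    exact hab.map Prod.swap hn (fun p hp => And.intro hp.2.2.1 ⟨hp.2.2.2, hp.1, hp.2.1⟩)
      (fun p q _ _ _ he => he)
  · intro p hp; exact hD _ hp
  · exact hc.map Prod.swap hn (fun p hp => hp) (fun p q _ _ _ he => he)
  · exact hq

/-- Faces joined to the bottom row by dual paths. -/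
def Lset (n : ℕ) (ω : V → Bool) : Set V :=
  {p | ∃ s : V, s.2 = -1 ∧ s ∈ Rect 0 (n - 1) (-1) n ∧
    Conn (op (du ω)) (Rect 0 (n - 1) (-1) n) s p}

/-- Dual crossing. -/
def Dc (n : ℕ) : Set (V → Bool) := {ω | du ω ∈ Vc 0 (n - 1) (-1) n}

lemma Lset.sub (n : ℕ) (ω : V → Bool) : Lset n ω ⊆ Rect 0 (n - 1) (-1) n := by
  rintro p ⟨s, _, h2, h3⟩; exact h3.mem h2

lemma Lset.bot (n : ℕ) (ω : V → Bool) (x : ℤ) (h1 : 0 ≤ x) (h2 : x ≤ n - 1) :
    (x, (-1 : ℤ)) ∈ Lset n ω :=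
  ⟨_, rfl, by simp only [Rect, Set.mem_setOf_eq]; omega, Conn.refl _ _ _⟩

lemma Lset.top {n : ℕ} {ω : V → Bool} (h : ω ∉ Dc n) (x : ℤ) : (x, (n : ℤ)) ∉ Lset n ω := by
  rintro ⟨s, h1, h2, h3⟩
  exact h ⟨s, _, h1, rfl, h2, h3⟩

lemma Lset.bd_sub (n : ℕ) (ω : V → Bool) :
    bd (Lset n ω) (Rect 0 (n - 1) (-1) n) ⊆ op ω := by
  rintro m ⟨p, q, hn, hp, hq, hq', rfl⟩
  by_contra hc
  apply hq'
  obtain ⟨s, h1, h2, h3⟩ := hp
  exact ⟨s, h1, h2, h3.tail hn (h3.mem h2) hq (by simpa [op, du] using hc)⟩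

lemma half_le_vv (n : ℕ) (hn : 1 ≤ n) : 1 / 2 ≤ vv n n := by
  have h1 : (Dc n)ᶜ ⊆ Hc 0 n 0 n := by
    intro ω hω
    obtain ⟨a, b, ha, hb, haS, hab⟩ :=
      exists_crossing n hn (Lset n ω) (Lset.bot n ω) (Lset.top hω)
    exact ⟨a, b, ha, hb, haS, hab.mono subset_rfl (fun _ _ _ _ _ he => Lset.bd_sub n ω he)⟩
  have h2 : Vc 0 (n - 1) (-1) n ⊆ Vc 0 n (-1) (n - 1) := by
    rintro ω ⟨a, b, ha, hb, haR, hab⟩
    simp only [Set.mem_setOf_eq] at ha hb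
    obtain ⟨w, w', k1, k2, k3, k4, k5, k6, _⟩ := hab.exit (Q := {p | p.2 ≤ (n : ℤ) - 1})
      (by simp only [Set.mem_setOf_eq]; omega) (by simp only [Set.mem_setOf_eq]; omega)
    simp only [Rect, Set.mem_setOf_eq, nb] at k2 k3 k4 k5 k6 haR
    refine ⟨a, w, ha, by simp only [Set.mem_setOf_eq]; omega,
      by simp only [Rect, Set.mem_setOf_eq]; omega, k1.mono ?_ (fun _ _ _ _ _ he => he)⟩
    intro p hp
    simp only [Rect, Set.mem_inter_iff, Set.mem_setOf_eq] at hp ⊢; omega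
  have h3 := pr_mono h1
  have h4 := pr_mono h2
  have l : Loc (Vc 0 (n - 1) (-1) n) := Cr.loc _ _ _ _ _ _
  have h5 : pr (Dc n) = pr (Vc 0 (n - 1) (-1) n) := pr_du l
  rw [pr_compl (A := Dc n) l.du, Hc_eq (w := n) (h := n) (by ring) (by ring)] at h3
  rw [Vc_eq (x0 := 0) (x1 := n) (w := n) (h := n) (by ring) (by ring)] at h4
  linarith

lemma half_le_noDc (n : ℕ) (hn : 1 ≤ n) : 1 / 2 ≤ pr (Dc n)ᶜ := by
  have h1 : Hc 0 n 0 n ⊆ (Dc n)ᶜ := by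
    rintro ω hω ⟨a, b, ha, hb, haR, hab⟩
    simp only [Set.mem_setOf_eq] at ha hb
    refine block_H hω (fun p hp => ?_) hab (hab.mem haR) (by omega) (by omega)
    simp only [Rect, Set.mem_setOf_eq] at hp; omega
  have h2 := pr_mono h1
  rw [Hc_eq (w := n) (h := n) (by ring) (by ring)] at h2
  exact (half_le_vv n hn).trans h2

end Pool.Agent.Lib.MP_9d2e01_pr
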