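import Mathlib

set_option autoImplicit false

namespace Pool.Agent.Lib.MP_9d2e01_pr

/-- The four directions in cyclic order: `0` north, `1` east, `2` south, `3` west. -/
def dir : Fin 4 → ℤ × ℤ := ![(0, 1), (1, 0), (0, -1), (-1, 0)]

/-- One step on (position, rotors): advance the rotor at the current site, then move along it. -/
def step (s : (ℤ × ℤ) × (ℤ × ℤ → Fin 4)) : (ℤ × ℤ) × (ℤ × ℤ → Fin 4) :=
  (s.1 + dir (s.2 s.1 + 1), Function.update s.2 s.1 (s.2 s.1 + 1))

/-- Position at time `t` of the rotor walk started at the origin with initial rotors `ρ`. -/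
def walk (ρ : ℤ × ℤ → Fin 4) (t : ℕ) : ℤ × ℤ := (step^[t] (0, ρ)).1

end Pool.Agent.Lib.MP_9d2e01_pr
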