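import Pool.Agent.Lib.MP_9d2e01_pr.RSW

set_option autoImplicit false
set_option linter.unusedSectionVars false
set_option linter.deprecated false

namespace Pool.Agent.Lib.MP_9d2e01_pr

lemma Conn.big {E R R' : Set V} (hR : R ⊆ R') {a b : V} (h : Conn E R a b) : Conn E R' a b :=
  h.mono hR (fun _ _ _ _ _ he => he)

lemma Rect.sub {x0 x1 y0 y1 x0' x1' y0' y1' : ℤ} (h1 : x0' ≤ x0) (h2 : x1 ≤ x1') (h3 : y0' ≤ y0)
    (h4 : y1 ≤ y1') : Rect x0 x1 y0 y1 ⊆ Rect x0' x1' y0' y1' := by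
  intro p hp
  simp only [Rect, Set.mem_setOf_eq] at hp ⊢; omega

lemma Xev.loc (n : ℕ) : Loc (Xev n) := by
  refine Loc.of_finite (S := Rect (2 * 0) (2 * (2 * n)) (2 * 0) (2 * (2 * n))) ?_
    (Rect.finite _ _ _ _)
  rintro ω ω' h ⟨a, b, z, t, h1, h2, h3, h4, h5, h6, h7, h8⟩
  have h' : ∀ m ∈ Rect (2 * 0) (2 * (n : ℤ)) (2 * 0) (2 * n), ω m = ω' m :=
    fun m hm => h m (Rect.sub le_rfl (by omega) le_rfl (by omega) hm)
  exact ⟨a, b, z, t, h1, h2, h3, h4.congr h', h5.congr h', h6, h7, h8.congr h⟩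

lemma Xev.up (n : ℕ) : Up (Xev n) := by
  rintro ω ω' h ⟨a, b, z, t, h1, h2, h3, h4, h5, h6, h7, h8⟩
  exact ⟨a, b, z, t, h1, h2, h3, h4.up h, h5.up h, h6, h7, h8.up h⟩

lemma Loc.comp {ι κ α : Type} {A : Set (κ → α)} (h : Loc A) (f : κ → ι) :
    Loc {ω : ι → α | (fun k => ω (f k)) ∈ A} := by
  classical
  obtain ⟨F, hF⟩ := h
  refine ⟨F.image f, fun ω ω' hω hA => hF _ _ (fun i hi => ?_) hA⟩
  exact hω _ (Finset.mem_coe.mpr (Finset.mem_image_of_mem _ (Finset.mem_coe.mp hi)))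

lemma vv_three (n : ℕ) (hn : 1 ≤ n) : 1 / 128 ≤ vv (2 * n) (3 * n) := by
  have sy := sym_refly n
  set X' : Set (V → Bool) := {ω | (fun m : V => ω (m.1, 2 * n - m.2)) ∈ Xev n} with hX'
  have p1 := Xev_ge n hn
  have p2 : pr X' = pr (Xev n) := pr_comp sy.inj (Xev.loc n)
  have l2 : Loc X' := (Xev.loc n).comp _
  have u2 : Up X' := fun ω ω' h hω => Xev.up n _ _ (fun m hm => h _ hm) hω
  have p3 := half_le_vv n hn
  have l3 : Loc (Vc 0 n 0 n) := Cr.loc _ _ _ _ _ _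
  have q1 := harris (Xev.loc n) l2 (Xev.up n) u2
  have q2 := harris ((Xev.loc n).inter l2) l3 ((Xev.up n).inter u2) (Cr.up _ _ _)
  have hsub : Xev n ∩ X' ∩ Vc 0 n 0 n ⊆ Vc 0 (2 * n) (-n) (2 * n) := by
    rintro ω ⟨⟨⟨a, b, z, t, h1, h2, h3, h4, h5, h6, h7, h8⟩,
      ⟨a', b', z', t', k1, k2, k3, k4, k5, k6, k7, k8⟩⟩, ⟨c, d, j1, j2, j3, j4⟩⟩
    have hSS : ∀ p ∈ Rect 0 (n : ℤ) 0 n, ((p.1, n - p.2) : V) ∈ Rect 0 (n : ℤ) 0 n := by
      intro p hp; simp only [Rect, Set.mem_setOf_eq] at hp ⊢; omega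
    have hRR : ∀ p ∈ Rect 0 (2 * (n : ℤ)) 0 (2 * n),
        ((p.1, n - p.2) : V) ∈ Rect 0 (2 * (n : ℤ)) (-n) (2 * n) := by
      intro p hp; simp only [Rect, Set.mem_setOf_eq] at hp ⊢; omega
    have k4' := sy.conn hSS k4
    have k5' := sy.conn hSS k5
    have k8' := sy.conn hRR k8
    simp only [Set.mem_setOf_eq] at j1 j2
    have col : ∀ p ∈ Rect 0 (n : ℤ) 0 n, 0 ≤ p.1 ∧ p.1 ≤ n := fun p hp => ⟨hp.1, hp.2.1⟩
    obtain ⟨w, w1, w2⟩ := cross_meet h5 h3 subset_rfl h1 h2 j4 j3 col j1.le j2.ge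
    obtain ⟨w', w1', w2'⟩ := cross_meet k5' (hSS _ k3) subset_rfl k1 k2 j4 j3 col j1.le j2.ge
    have s1 : Rect 0 (n : ℤ) 0 n ⊆ Rect 0 (2 * (n : ℤ)) (-n) (2 * n) :=
      Rect.sub le_rfl (by omega) (by omega) (by omega)
    have s2 : Rect 0 (2 * (n : ℤ)) 0 (2 * n) ⊆ Rect 0 (2 * (n : ℤ)) (-n) (2 * n) :=
      Rect.sub le_rfl (by omega) (by omega) (by omega)
    refine ⟨(t'.1, n - t'.2), t, by simp only [Set.mem_setOf_eq]; omega, h6, hRR _ k7, ?_⟩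
    exact k8'.trans (((k4'.symm.trans (w1'.trans (w2'.symm.trans
      (w2.trans (w1.symm.trans h4))))).big s1).trans (h8.symm.big s2))
  have q3 := pr_mono hsub
  rw [Vc_eq (x0 := 0) (x1 := 2 * n) (w := 2 * n) (h := 3 * n) (by ring) (by ring)] at q3
  rw [p2] at q1
  unfold vv at p3
  have a1 : 1 / 64 ≤ pr (Xev n ∩ X') := by nlinarith
  nlinarith

lemma vv_glue (n : ℕ) (hn : 1 ≤ n) (h : ℤ) (hh : 2 * n ≤ h) :
    vv (2 * n) h / 256 ≤ vv (2 * n) (h + n) := by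
  have l1 : Loc (Vc 0 (2 * n) 0 h) := Cr.loc _ _ _ _ _ _
  have l2 : Loc (Vc 0 (2 * n) (h - 2 * n) (h + n)) := Cr.loc _ _ _ _ _ _
  have l3 : Loc (Hc 0 (2 * n) (h - 2 * n) h) := Cr.loc _ _ _ _ _ _
  have q1 := harris l1 l2 (Cr.up _ _ _) (Cr.up _ _ _)
  have q2 := harris (l1.inter l2) l3 ((Cr.up _ _ _).inter (Cr.up _ _ _)) (Cr.up _ _ _)
  have hsub : Vc 0 (2 * n) 0 h ∩ Vc 0 (2 * n) (h - 2 * n) (h + n) ∩ Hc 0 (2 * n) (h - 2 * n) h ⊆
      Vc 0 (2 * n) 0 (h + n) := by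
    rintro ω ⟨⟨⟨c, d, j1, j2, j3, j4⟩, ⟨c', d', k1, k2, k3, k4⟩⟩, ⟨a, b, h1, h2, h3, h4⟩⟩
    simp only [Set.mem_setOf_eq] at j1 j2 k1 k2 h1 h2
    obtain ⟨w, w1, w2⟩ := cross_meet h4 h3 subset_rfl h1 h2 j4 j3
      (fun p hp => ⟨hp.1, hp.2.1⟩) (by omega) (by omega)
    obtain ⟨w', w1', w2'⟩ := cross_meet h4 h3 subset_rfl h1 h2 k4 k3
      (fun p hp => ⟨hp.1, hp.2.1⟩) (by omega) (by omega)
    refine ⟨c, d', j1, k2, Rect.sub le_rfl le_rfl le_rfl (by omega) j3, ?_⟩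
    exact (w2.big (Rect.sub le_rfl le_rfl le_rfl (by omega))).trans
      (((w1.symm.trans w1').big (Rect.sub le_rfl le_rfl (by omega) (by omega))).trans
        ((w2'.symm.trans k4).big (Rect.sub le_rfl le_rfl (by omega) le_rfl)))
  have q3 := pr_mono hsub
  rw [Vc_eq (y0 := h - 2 * n) (w := 2 * n) (h := 3 * n) (by ring) (by ring)] at q1
  rw [Hc_eq (w := 2 * n) (h := 2 * n) (by ring) (by ring)] at q2
  have p1 := vv_three n hn
  have p2 := half_le_vv (2 * n) (by omega)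
  push_cast at p2
  have p0 := pr_nonneg (Vc 0 (2 * n) 0 h)
  have p4 := pr_nonneg (Vc 0 (2 * n) 0 h ∩ Vc 0 (2 * n) (h - 2 * n) (h + n))
  unfold vv at *
  nlinarith

lemma vv_six (n : ℕ) (hn : 1 ≤ n) : 1 / 2 ^ 31 ≤ vv (2 * n) (6 * n) := by
  have h0 := vv_three n hn
  have h1 := vv_glue n hn (3 * n) (by omega)
  have h2 := vv_glue n hn (3 * n + n) (by omega)
  have h3 := vv_glue n hn (3 * n + n + n) (by omega)
  rw [show (3 * n + n + n + n : ℤ) = 6 * n by ring] at h3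
  norm_num at *
  linarith

/-- Four long crossings around the origin. -/
def Ann (s : ℕ) : Set (V → Bool) :=
  Hc (-3 * s) (3 * s) s (3 * s) ∩ Hc (-3 * s) (3 * s) (-3 * s) (-s) ∩
    Vc s (3 * s) (-3 * s) (3 * s) ∩ Vc (-3 * s) (-s) (-3 * s) (3 * s)

lemma Ann.loc (s : ℕ) : Loc (Ann s) :=
  (((Cr.loc _ _ _ _ _ _).inter (Cr.loc _ _ _ _ _ _)).inter (Cr.loc _ _ _ _ _ _)).inter
    (Cr.loc _ _ _ _ _ _)

lemma Ann.dep (s : ℕ) : Dep (Ann s)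
    (Rect (-6 * s) (6 * s) (-6 * s) (6 * s) \
      Rect (-2 * s + 1) (2 * s - 1) (-2 * s + 1) (2 * s - 1)) := by
  refine ((((Cr.dep _ _ _ _ _ _).mono ?_).inter ((Cr.dep _ _ _ _ _ _).mono ?_)).inter
    ((Cr.dep _ _ _ _ _ _).mono ?_)).inter ((Cr.dep _ _ _ _ _ _).mono ?_) <;>
  intro m hm <;> simp only [Rect, Set.mem_setOf_eq, Set.mem_diff] at hm ⊢ <;> omega

lemma Ann_ge (s : ℕ) (hs : 1 ≤ s) : 1 / 2 ^ 124 ≤ pr (Ann s) := by
  have h := vv_six s hs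
  have l1 : Loc (Hc (-3 * s) (3 * s) s (3 * s)) := Cr.loc _ _ _ _ _ _
  have l2 : Loc (Hc (-3 * s) (3 * s) (-3 * s) (-s)) := Cr.loc _ _ _ _ _ _
  have l3 : Loc (Vc s (3 * s) (-3 * s) (3 * s)) := Cr.loc _ _ _ _ _ _
  have l4 : Loc (Vc (-3 * s) (-s) (-3 * s) (3 * s)) := Cr.loc _ _ _ _ _ _
  have q1 := harris l1 l2 (Cr.up _ _ _) (Cr.up _ _ _)
  have q2 := harris (l1.inter l2) l3 ((Cr.up _ _ _).inter (Cr.up _ _ _)) (Cr.up _ _ _)
  have q3 := harris ((l1.inter l2).inter l3) l4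
    (((Cr.up _ _ _).inter (Cr.up _ _ _)).inter (Cr.up _ _ _)) (Cr.up _ _ _)
  rw [Hc_eq (w := 2 * s) (h := 6 * s) (by ring) (by ring),
    Hc_eq (w := 2 * s) (h := 6 * s) (by ring) (by ring)] at q1
  rw [Vc_eq (w := 2 * s) (h := 6 * s) (by ring) (by ring)] at q2 q3
  have c0 : (0 : ℝ) ≤ 1 / 2 ^ 31 := by positivity
  have a1 := (mul_le_mul h h c0 (c0.trans h)).trans q1
  have a2 := (mul_le_mul a1 h c0 (pr_nonneg _)).trans q2
  have a3 := (mul_le_mul a2 h c0 (pr_nonneg _)).trans q3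
  refine le_trans (le_of_eq ?_) a3
  norm_num

lemma Ann.block {s : ℕ} {ω : V → Bool} (h : ω ∈ Ann s) {D : Set V} {p q : V}
    (hc : Conn (op (du ω)) D p q) (hp : p ∈ Rect (-s) (s - 1) (-s) (s - 1))
    (hq : q ∉ Rect (-3 * s) (3 * s - 1) (-3 * s) (3 * s - 1)) : False := by
  obtain ⟨⟨⟨h1, h2⟩, h3⟩, h4⟩ := h
  have hp' : p ∈ Rect (-3 * s) (3 * s - 1) (-3 * s) (3 * s - 1) :=
    Rect.sub (by omega) (by omega) (by omega) (by omega) hp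
  obtain ⟨w, w', k1, k2, k3, k4, hwD, _, k7⟩ := hc.exit hp' hq
  have hwQ := k2
  simp only [Rect, Set.mem_setOf_eq] at hp k2 k3
  have k4' := k4
  simp only [nb] at k4'
  have col : ∀ z ∈ D ∩ Rect (-3 * s) (3 * s - 1) (-3 * s) (3 * s - 1),
      z ∈ {z : V | -3 * (s : ℤ) ≤ z.1 ∧ z.1 < 3 * s} := by
    intro z hz; have := hz.2; simp only [Rect, Set.mem_setOf_eq] at this ⊢; omega
  have row : ∀ z ∈ D ∩ Rect (-3 * s) (3 * s - 1) (-3 * s) (3 * s - 1),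
      z ∈ {z : V | -3 * (s : ℤ) ≤ z.2 ∧ z.2 < 3 * s} := by
    intro z hz; have := hz.2; simp only [Rect, Set.mem_setOf_eq] at this ⊢; omega
  by_cases c : w'.1 = w.1
  · have hw : w ∈ {z : V | -3 * (s : ℤ) ≤ z.1 ∧ z.1 < 3 * s} := by
      simp only [Set.mem_setOf_eq]; omega
    have hw' : w' ∈ {z : V | -3 * (s : ℤ) ≤ z.1 ∧ z.1 < 3 * s} := by
      simp only [Set.mem_setOf_eq]; omega
    have k8 := (k1.big col).tail k4 hw hw' k7
    by_cases c2 : w'.2 = 3 * s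
    · exact block_H h1 (fun z hz => hz) k8 hw' (by omega) (by omega)
    · exact block_H h2 (fun z hz => hz) k8.symm (col _ ⟨(k1.symm.mem ⟨hwD, hwQ⟩).1, hp'⟩)
        (by omega) (by omega)
  · have hw : w ∈ {z : V | -3 * (s : ℤ) ≤ z.2 ∧ z.2 < 3 * s} := by
      simp only [Set.mem_setOf_eq]; omega
    have hw' : w' ∈ {z : V | -3 * (s : ℤ) ≤ z.2 ∧ z.2 < 3 * s} := by
      simp only [Set.mem_setOf_eq]; omega
    have k8 := (k1.big row).tail k4 hw hw' k7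
    by_cases c2 : w'.1 = 3 * s
    · exact block_V h3 (fun z hz => hz) k8 hw' (by omega) (by omega)
    · exact block_V h4 (fun z hz => hz) k8.symm (row _ ⟨(k1.symm.mem ⟨hwD, hwQ⟩).1, hp'⟩)
        (by omega) (by omega)

/-- No annulus event among the first `K` scales. -/
def NoAnn (K : ℕ) : Set (V → Bool) := {ω | ∀ k < K, ω ∉ Ann (4 ^ k)}

lemma NoAnn.dep (K : ℕ) : Dep (NoAnn K)
    (Rect (-2 * (4 ^ K : ℕ) + 1) (2 * (4 ^ K : ℕ) - 1) (-2 * (4 ^ K : ℕ) + 1)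
      (2 * (4 ^ K : ℕ) - 1)) := by
  intro ω ω' h hω k hk
  refine ((Ann.dep (4 ^ k)).compl.mono ?_) ω ω' h (hω k hk)
  have h1 : 4 ^ (k + 1) ≤ 4 ^ K := Nat.pow_le_pow_right (by norm_num) hk
  have h2 : 1 ≤ 4 ^ k := Nat.one_le_pow _ _ (by norm_num)
  rw [pow_succ] at h1
  intro m hm
  have := hm.1
  simp only [Rect, Set.mem_setOf_eq] at this ⊢
  omega

lemma NoAnn_le (K : ℕ) : pr (NoAnn K) ≤ (1 - 1 / 2 ^ 124) ^ K := by
  induction K with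
  | zero => simpa using pr_le_one _
  | succ K ih =>
    have e : NoAnn (K + 1) = NoAnn K ∩ (Ann (4 ^ K))ᶜ := by
      ext ω
      simp only [NoAnn, Set.mem_setOf_eq, Set.mem_inter_iff, Set.mem_compl_iff]
      constructor
      · intro h; exact ⟨fun k hk => h k (by omega), h K (by omega)⟩
      · rintro ⟨h1, h2⟩ k hk
        rcases Nat.lt_succ_iff_lt_or_eq.mp hk with h | rfl
        · exact h1 k h
        · exact h2
    rw [e, pr_indep (NoAnn.dep K) (Ann.dep (4 ^ K)).compl ?_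
      (Loc.of_finite (NoAnn.dep K) (Rect.finite _ _ _ _)) (Ann.loc _).compl,
      pr_compl (Ann.loc _), pow_succ]
    · have h1 := Ann_ge (4 ^ K) (Nat.one_le_pow _ _ (by norm_num))
      have h2 := pr_le_one (Ann (4 ^ K))
      exact mul_le_mul ih (by linarith) (by linarith) (by positivity)
    · exact Set.disjoint_left.mpr (fun m h1 h2 => h2.2 h1)

/-- Inner box. -/
def Qb (s : ℕ) : Set V := Rect (-3 * s) (3 * s - 1) (-3 * s) (3 * s - 1)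

/-- Outer box. -/
def Bb (s : ℕ) : Set V := Rect (-3 * s - 1) (3 * s) (-3 * s - 1) (3 * s)

/-- Harris theorem: at parameter one half clusters are small. -/
theorem harris_small (ε : ℝ) (hε : 0 < ε) : ∃ s : ℕ, 1 ≤ s ∧ ∀ p ∈ Rect (-1) 0 (-1) 0,
    pr (Cr {p} (Qb s)ᶜ (Bb s)) ≤ ε := by
  obtain ⟨K, hK⟩ := exists_pow_lt_of_lt_one hε
    (show (1 - 1 / 2 ^ 124 : ℝ) < 1 by norm_num)
  refine ⟨4 ^ K, Nat.one_le_pow _ _ (by norm_num), fun p hp => ?_⟩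
  have l : Loc (Cr {p} (Qb (4 ^ K))ᶜ (Bb (4 ^ K))) := Cr.loc _ _ _ _ _ _
  rw [← pr_du l]
  refine (pr_mono ?_).trans ((NoAnn_le K).trans hK.le)
  rintro ω ⟨a, b, rfl, h2, _, h4⟩ k hk hA
  have h1 : 4 ^ k ≤ 4 ^ K := Nat.pow_le_pow_right (by norm_num) hk.le
  have h0 : 1 ≤ 4 ^ k := Nat.one_le_pow _ _ (by norm_num)
  refine Ann.block hA h4 (Rect.sub (by omega) (by omega) (by omega) (by omega) hp) (fun hb => h2 ?_)
  exact Rect.sub (by omega) (by omega) (by omega) (by omega) hb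

end Pool.Agent.Lib.MP_9d2e01_pr
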