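import Pool.Agent.Lib.MP_9d2e01_pr.Rotor
import Pool.Agent.Lib.MP_9d2e01_pr.Compare

set_option autoImplicit false
set_option linter.unusedSectionVars false
set_option linter.deprecated false

namespace Pool.Agent.Lib.MP_9d2e01_pr

open Function MeasureTheory ProbabilityTheory

/-- A rotor from two fair bits. -/
def enc (w : Bool → Bool) : Fin 4 :=
  if w true then (if w false then 3 else 0) else (if w false then 2 else 1)

/-- The two bits attached to a site. -/
def loc (k : V × Bool) : V :=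
  if k.2 then (2 * k.1.1 - 1, 2 * k.1.2 - 2) else (2 * k.1.1, 2 * k.1.2 - 1)

lemma loc_inj : Injective loc := by
  rintro ⟨⟨a, b⟩, c⟩ ⟨⟨a', b'⟩, c'⟩ h
  cases c <;> cases c' <;> simp [loc] at h ⊢ <;> omega

/-- Rotor configuration built from bits. -/
def Psi (ω : V → Bool) : V → Fin 4 := fun x => enc (fun c => ω (loc (x, c)))

lemma enc_map : (Measure.infinitePi (fun _ : Bool => uniformOn (Set.univ : Set Bool))).map enc =
    uniformOn (Set.univ : Set (Fin 4)) := by
  apply Measure.ext_of_singleton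
  intro d
  rw [Measure.map_apply (measurable_of_finite _) (MeasurableSet.singleton d), uniformOn_univ]
  have h : ∃ w : Bool → Bool, enc ⁻¹' {d} = {w} := by
    refine ⟨fun c => if c then decide (d = 3 ∨ d = 0) else decide (d = 3 ∨ d = 2), ?_⟩
    ext w
    simp only [Set.mem_preimage, Set.mem_singleton_iff, funext_iff, Bool.forall_bool, enc]
    fin_cases d <;> cases w true <;> cases w false <;> simp
  obtain ⟨w, hw⟩ := h
  rw [hw, Measure.infinitePi_singleton_of_fintype]
  simp only [uniformOn_univ, Measure.count_singleton, Fintype.card_bool, Finset.prod_const,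
    Finset.card_univ, Fintype.card_fin]
  simp only [one_div, Nat.cast_ofNat, ← ENNReal.inv_pow]
  norm_num

lemma Psi_map : (mu V Bool).map Psi = mu V (Fin 4) := by
  have h1 : (mu V Bool).map (fun ω k => ω (loc k)) = mu (V × Bool) Bool :=
    Measure.map_infinitePi_infinitePi_of_inj loc_inj
  have h2 := Measure.infinitePi_map_curry
    (fun (_ : V) (_ : Bool) => uniformOn (Set.univ : Set Bool))
  have h3 := Measure.infinitePi_map_pi
    (fun _ : V => Measure.infinitePi (fun _ : Bool => uniformOn (Set.univ : Set Bool)))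
    (f := fun _ => enc) (fun _ => measurable_of_finite _)
  have e : Psi = (fun (x : V → Bool → Bool) i => enc (x i)) ∘
      (MeasurableEquiv.curry V Bool Bool) ∘ (fun ω k => ω (loc k)) := rfl
  have m1 : Measurable (fun (x : V → Bool → Bool) i => enc (x i)) :=
    measurable_pi_lambda _ (fun i => (measurable_of_finite enc).comp (measurable_pi_apply i))
  have m2 : Measurable (fun (ω : V → Bool) k => ω (loc k)) := by fun_prop
  rw [e, ← Measure.map_map m1 ((MeasurableEquiv.measurable _).comp m2),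
    ← Measure.map_map (MeasurableEquiv.measurable _) m2, h1]
  unfold mu
  rw [h2, h3]
  simp only [enc_map]

lemma Psi_meas : Measurable Psi :=
  measurable_pi_lambda _ (fun _ => (measurable_of_finite enc).comp
    (measurable_pi_lambda _ (fun _ => measurable_pi_apply _)))

lemma pr_Psi {A : Set (V → Fin 4)} (h : Loc A) : pr A = pr {ω | Psi ω ∈ A} := by
  unfold pr
  rw [← Psi_map, map_measureReal_apply Psi_meas h.measurableSet]
  rfl

/-- Escape event for the face cluster of the face at the origin. -/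
def RReach (s : ℕ) : Set (V → Fin 4) :=
  {ρ | ∃ q, q ∉ Qb s ∧
    Relation.ReflTransGen (fun p q => RStep ρ p q ∧ p ∈ Bb s ∧ q ∈ Bb s) 0 q}

lemma cor_bound (x : V) (d : Fin 4) :
    x.1 - 1 ≤ (cor x d).1 ∧ (cor x d).1 ≤ x.1 ∧ x.2 - 1 ≤ (cor x d).2 ∧ (cor x d).2 ≤ x.2 := by
  fin_cases d <;> simp [cor, off]

lemma RReach.loc (s : ℕ) : Loc (RReach s) := by
  refine Loc.of_finite (S := Rect (-3 * s - 1) (3 * s + 1) (-3 * s - 1) (3 * s + 1)) ?_
    (Rect.finite _ _ _ _)
  rintro ρ ρ' h ⟨q, h1, h2⟩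
  refine ⟨q, h1, rtg_mono (fun a b hab => ⟨?_, hab.2⟩) h2⟩
  obtain ⟨⟨x, hx⟩, ha, _⟩ := hab
  have : ρ x = ρ' x := by
    apply h
    simp only [Bb, Rect, Set.mem_setOf_eq] at ha ⊢
    rcases hx with ⟨rfl, _⟩ | ⟨rfl, _⟩
    · have := cor_bound x (ρ x + 2); omega
    · have := cor_bound x (ρ x + 3); omega
  exact ⟨x, this ▸ hx⟩

lemma rstep_psi {ω : V → Bool} {p q : V} (h : RStep (Psi ω) p q) :
    nb p q ∧ full par not ω (p + q, up p q) = true := by
  obtain ⟨⟨a, b⟩, h⟩ := h
  have e1 : par (2 * a - 1, 2 * b) = (2 * a - 1, 2 * b - 2) := by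
    unfold par; rw [if_pos (by simp only; omega)]
  have e2 : par (2 * a - 2, 2 * b - 1) = (2 * a, 2 * b - 1) := by
    unfold par; rw [if_neg (by simp only; omega)]; simp
  have key : ∀ d : Fin 4, (d = Psi ω (a, b) + 2 ∨ d = Psi ω (a, b) + 3) →
      nb (cor (a, b) d) (cor (a, b) (d + 3)) ∧ full par not ω
        (cor (a, b) d + cor (a, b) (d + 3), up (cor (a, b) d) (cor (a, b) (d + 3))) = true := by
    intro d hd
    simp only [Psi, enc, loc, if_true, Bool.false_eq_true, if_false] at hd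
    fin_cases d
    · have s1 : cor (a, b) 0 + cor (a, b) 3 = (2 * a - 1, 2 * b) := by
        ext <;> simp [cor, off] <;> ring
      have s2 : up (cor (a, b) 0) (cor (a, b) 3) = false := by simp [up, cor, off]
      refine ⟨by simp [nb, cor, off]; omega, ?_⟩
      change full par not ω (cor (a, b) 0 + cor (a, b) 3, up (cor (a, b) 0) (cor (a, b) 3)) = true
      rw [s1, s2]
      simp only [full, if_true, e1]
      revert hd
      cases ω (2 * a - 1, 2 * b - 2) <;> cases ω (2 * a, 2 * b - 1) <;> decide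
    · have s1 : cor (a, b) 1 + cor (a, b) 0 = (2 * a, 2 * b - 1) := by
        ext <;> simp [cor, off] <;> ring
      have s2 : up (cor (a, b) 1) (cor (a, b) 0) = true := by simp [up, cor, off]
      refine ⟨by simp [nb, cor, off], ?_⟩
      change full par not ω (cor (a, b) 1 + cor (a, b) 0, up (cor (a, b) 1) (cor (a, b) 0)) = true
      rw [s1, s2]
      simp only [full, Bool.true_eq_false, if_false]
      revert hd
      cases ω (2 * a - 1, 2 * b - 2) <;> cases ω (2 * a, 2 * b - 1) <;> decide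
    · have s1 : cor (a, b) 2 + cor (a, b) 1 = (2 * a - 1, 2 * b - 2) := by
        ext <;> simp [cor, off] <;> ring
      have s2 : up (cor (a, b) 2) (cor (a, b) 1) = true := by simp [up, cor, off]
      refine ⟨by simp [nb, cor, off], ?_⟩
      change full par not ω (cor (a, b) 2 + cor (a, b) 1, up (cor (a, b) 2) (cor (a, b) 1)) = true
      rw [s1, s2]
      simp only [full, Bool.true_eq_false, if_false]
      revert hd
      cases ω (2 * a - 1, 2 * b - 2) <;> cases ω (2 * a, 2 * b - 1) <;> decide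
    · have s1 : cor (a, b) 3 + cor (a, b) 2 = (2 * a - 2, 2 * b - 1) := by
        ext <;> simp [cor, off] <;> ring
      have s2 : up (cor (a, b) 3) (cor (a, b) 2) = false := by simp [up, cor, off]
      refine ⟨by simp [nb, cor, off]; omega, ?_⟩
      change full par not ω (cor (a, b) 3 + cor (a, b) 2, up (cor (a, b) 3) (cor (a, b) 2)) = true
      rw [s1, s2]
      simp only [full, if_true, e2]
      revert hd
      cases ω (2 * a - 1, 2 * b - 2) <;> cases ω (2 * a, 2 * b - 1) <;> decide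
  have f1 : Psi ω (a, b) + 2 + 3 = Psi ω (a, b) + 1 := by
    generalize Psi ω (a, b) = r; fin_cases r <;> rfl
  have f2 : Psi ω (a, b) + 3 + 3 = Psi ω (a, b) + 2 := by
    generalize Psi ω (a, b) = r; fin_cases r <;> rfl
  rcases h with ⟨rfl, rfl⟩ | ⟨rfl, rfl⟩
  · rw [← f1]; exact key _ (Or.inl rfl)
  · rw [← f2]; exact key _ (Or.inr rfl)

lemma RReach_small (ε : ℝ) (hε : 0 < ε) : ∃ s : ℕ, 1 ≤ s ∧ pr (RReach s) ≤ ε := by
  obtain ⟨s, hs, h⟩ := anti_small ε hε
  refine ⟨s, hs, ?_⟩
  rw [pr_Psi (RReach.loc s)]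
  refine (pr_mono ?_).trans (h 0 (by simp [Rect]))
  rintro ω ⟨q, h1, h2⟩
  exact ⟨q, h1, rtg_mono (fun a b hab =>
    ⟨(rstep_psi hab.1).1, hab.2.1, hab.2.2, (rstep_psi hab.1).2⟩) h2⟩

lemma reach_of_infinite {ρ : V → Fin 4} {φ : V}
    (h : ¬ {q | Relation.ReflTransGen (RStep ρ) φ q}.Finite) (s : ℕ) (hs : 1 ≤ s) :
    (fun x => ρ (x + φ)) ∈ RReach s := by
  have sh : ∀ q, Relation.ReflTransGen (RStep ρ) φ q →
      Relation.ReflTransGen (RStep (fun x => ρ (x + φ))) 0 (q - φ) := by
    intro q hq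
    induction hq with
    | refl => rw [sub_self]
    | tail _ hs ih =>
      refine ih.tail ?_
      obtain ⟨x, hx⟩ := hs
      refine ⟨x - φ, ?_⟩
      have e : ∀ d, cor (x - φ) d = cor x d - φ := by intro d; simp only [cor]; abel
      simp only [sub_add_cancel, e]
      rcases hx with ⟨rfl, rfl⟩ | ⟨rfl, rfl⟩
      · exact Or.inl ⟨rfl, rfl⟩
      · exact Or.inr ⟨rfl, rfl⟩
  have ex : ∃ q, Relation.ReflTransGen (RStep ρ) φ q ∧ q - φ ∉ Qb s := by
    by_contra hc
    push Not at hc
    refine h (((Rect.finite _ _ _ _ : (Qb s).Finite).image (fun z => z + φ)).subset ?_)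
    intro q hq
    exact ⟨q - φ, hc q hq, by simp⟩
  obtain ⟨q, h1, h2⟩ := ex
  have h0 : (0 : V) ∈ Qb s := by
    simp only [Qb, Rect, Set.mem_setOf_eq, Prod.fst_zero, Prod.snd_zero]; omega
  obtain ⟨w, w', k1, k2, k3, k4⟩ := rtg_exit (sh q h1) h0 h2
  have QB : Qb s ⊆ Bb s := Rect.sub (by omega) (by omega) (by omega) (by omega)
  refine ⟨w', k3, (rtg_mono (fun a b hab => ⟨hab.1, QB hab.2.1, QB hab.2.2⟩) k1).tail
    ⟨k4, QB k2, ?_⟩⟩
  obtain ⟨x, hx⟩ := k4
  beta_reduce at hx
  simp only [Qb, Bb, Rect, Set.mem_setOf_eq] at k2 ⊢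
  rcases hx with ⟨rfl, rfl⟩ | ⟨rfl, rfl⟩
  · have a := cor_bound x (ρ (x + φ) + 2)
    have b := cor_bound x (ρ (x + φ) + 1)
    omega
  · have a := cor_bound x (ρ (x + φ) + 3)
    have b := cor_bound x (ρ (x + φ) + 2)
    omega

theorem ae_allFin : ∀ᵐ ρ ∂(mu V (Fin 4)), AllFin ρ := by
  unfold AllFin
  rw [ae_all_iff]
  intro φ
  rw [ae_iff]
  have h : pr {ρ : V → Fin 4 | ¬ {q | Relation.ReflTransGen (RStep ρ) φ q}.Finite} = 0 := by
    refine le_antisymm (le_of_forall_pos_le_add (fun ε hε => ?_)) (pr_nonneg _)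
    obtain ⟨s, hs, h⟩ := RReach_small ε hε
    rw [zero_add]
    refine le_trans ?_ h
    rw [← pr_comp (add_left_injective φ) (RReach.loc s)]
    exact pr_mono (fun ρ hρ => reach_of_infinite hρ s hs)
  unfold pr at h
  exact (measureReal_eq_zero_iff (measure_ne_top _ _)).mp h

end Pool.Agent.Lib.MP_9d2e01_pr
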