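import Pool.Agent.Lib.MP_9d2e01_pr.Cross

set_option autoImplicit false
set_option linter.unusedSectionVars false
set_option linter.deprecated false

namespace Pool.Agent.Lib.MP_9d2e01_pr

/-- Edges next to a face of `L`. -/
def near (L D : Set V) : Set V := {m | ∃ p q, nb p q ∧ p ∈ L ∧ q ∈ D ∧ m = p + q + (1, 1)}

/-- Edges next to `L` or to its mirror image. -/
def nearS (n : ℕ) (L : Set V) : Set V :=
  {m | m ∈ near L (Rect 0 (n - 1) (-1) n) ∨
    ((2 * (2 * n) - m.1, m.2) : V) ∈ near L (Rect 0 (n - 1) (-1) n)}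

lemma Lset.dep (n : ℕ) (L : Set V) :
    Dep {ω | Lset n ω = L} (near L (Rect 0 (n - 1) (-1) n)) := by
  intro ω ω' h hω
  simp only [Set.mem_setOf_eq] at hω ⊢
  have key : ∀ p q, nb p q → p ∈ L → q ∈ Rect 0 (n - 1) (-1) n →
      (p + q ∈ op (du ω) ↔ p + q ∈ op (du ω')) := by
    intro p q h1 h2 h3
    have := h _ ⟨p, q, h1, h2, h3, rfl⟩
    simp only [op, du, Set.mem_setOf_eq, this]
  ext p
  constructor
  · rintro ⟨s, h1, h2, h3⟩
    induction h3 with
    | refl => rw [← hω]; exact ⟨s, h1, h2, Conn.refl _ _ _⟩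
    | tail _ hs ih =>
      have ih' := ih
      rw [← hω] at ih' ⊢
      obtain ⟨s', k1, k2, k3⟩ := ih'
      exact ⟨s', k1, k2, k3.tail hs.1 hs.2.1 hs.2.2.1 ((key _ _ hs.1 ih hs.2.2.1).mpr hs.2.2.2)⟩
  · intro hp
    rw [← hω] at hp
    obtain ⟨s, h1, h2, h3⟩ := hp
    refine ⟨s, h1, h2, ?_⟩
    induction h3 with
    | refl => exact Conn.refl _ _ _
    | tail h4 hs ih =>
      refine ih.tail hs.1 hs.2.1 hs.2.2.1 ((key _ _ hs.1 ?_ hs.2.2.1).mp hs.2.2.2)
      rw [← hω]; exact ⟨s, h1, h2, h4⟩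

lemma Lset.inner {n : ℕ} {ω : V → Bool} {p : V} (hp : p ∈ Lset n ω) :
    ∃ s : V, s.2 = -1 ∧ Conn Set.univ (Lset n ω) s p := by
  obtain ⟨s, h1, h2, h3⟩ := hp
  refine ⟨s, h1, h3.cluster.mono (fun z hz => ?_) (fun _ _ _ _ _ _ => Set.mem_univ _)⟩
  exact ⟨s, h1, h2, hz.2⟩

/-- Deterministic part of the reflection argument. -/
lemma refl_hit (n : ℕ) (L : Set V) (hL : L ⊆ Rect 0 (n - 1) (-1) n)
    (hin : ∀ p ∈ L, ∃ s : V, s.2 = -1 ∧ Conn Set.univ L s p) {a b : V} (ha : a.1 = 0)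
    (hb : b.1 = n) (haS : a ∈ Rect 0 n 0 n)
    (hab : Conn (bd L (Rect 0 (n - 1) (-1) n)) (Rect 0 n 0 n) a b) {ω : V → Bool}
    (hω : ω ∈ Vc 0 (2 * n) 0 (2 * n)) :
    ∃ t z : V, t.2 = 2 * n ∧ t ∈ Rect 0 (2 * n) 0 (2 * n) ∧
      (z ∈ cl (bd L (Rect 0 (n - 1) (-1) n)) (Rect 0 n 0 n) a ∨
        ((2 * n - z.1, z.2) : V) ∈ cl (bd L (Rect 0 (n - 1) (-1) n)) (Rect 0 n 0 n) a) ∧
      Conn (op ω \ nearS n L) (Rect 0 (2 * n) 0 (2 * n)) t z := by
  set D := Rect 0 ((n : ℤ) - 1) (-1) n with hD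
  set T := cl (bd L D) (Rect 0 n 0 n) a with hT
  set R := Rect 0 (2 * (n : ℤ)) 0 (2 * n) with hR
  set E1 : Set V := {m | m ∈ bd L D ∨ ((2 * (2 * n) - m.1, m.2) : V) ∈ bd L D} with hE1
  set R1 : Set V := {z | z ∈ T ∨ ((2 * n - z.1, z.2) : V) ∈ T} with hR1
  have sy := sym_reflx (2 * n)
  have c1 : Conn E1 R1 a b := hab.cluster.mono (fun z hz => Or.inl hz)
    (fun _ _ _ _ _ he => Or.inl he)
  have c2 : Conn E1 R1 (2 * n - a.1, a.2) (2 * n - b.1, b.2) := by
    refine hab.cluster.map (fun p => (2 * n - p.1, p.2)) sy.nb (fun p hp => Or.inr ?_)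
      (fun p q _ _ _ he => Or.inr ?_)
    · simpa using hp
    · convert he using 1; ext <;> simp; ring
  have eb : ((2 * n - b.1, b.2) : V) = b := by ext <;> simp; omega
  rw [eb] at c2
  have hR1R : R1 ⊆ Rect 0 (2 * n) 0 (2 * n) := by
    rintro z (hz | hz) <;> have := hz.1 <;>
      simp only [Rect, Set.mem_setOf_eq] at this ⊢ <;> omega
  obtain ⟨N, hN⟩ := (c1.trans c2.symm).lr (x0 := 0) (x1 := 2 * n) (y0 := 0) (y1 := 2 * n)
    (Or.inl ⟨haS, Conn.refl _ _ _⟩) hR1R ha (by simp [ha])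
  have notbd : ∀ p q, nb p q → p ∈ L → q ∈ L → p + q + (1, 1) ∉ bd L D := by
    rintro p q h1 h2 h3 ⟨p', q', k1, k2, _, k4, k5⟩
    have e1 := congrArg Prod.fst k5
    have e2 := congrArg Prod.snd k5
    simp only [Prod.fst_add, Prod.snd_add, nb] at e1 e2 h1 k1
    have : q' = p ∨ q' = q := by
      rw [Prod.ext_iff, Prod.ext_iff]; omega
    rcases this with rfl | rfl <;> contradiction
  have bdx : ∀ m ∈ bd L D, m.1 ≤ 2 * n - 1 := by
    rintro m ⟨p', q', k1, k2, k3, _, rfl⟩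
    have := hL k2
    simp only [hD, Rect, Set.mem_setOf_eq, Prod.fst_add] at this k3 ⊢; omega
  have z1 : ∀ p ∈ L, N p = 0 := by
    intro p hp
    obtain ⟨s, h1, h2⟩ := hin p hp
    rw [← hN.conn_dual (D := L) (E' := Set.univ) (fun p hp => by
      have := hL hp; simp only [hD, Rect, Set.mem_setOf_eq] at this; omega) ?_ h2]
    · exact hN.low s.1 s.2 (by omega)
    · rintro p q k1 k2 k3 _ (he | he)
      · exact notbd p q k1 k2 k3 he
      · have := bdx _ he
        have h5 := hL k2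
        have h6 := hL k3
        simp only [hD, Rect, Set.mem_setOf_eq, Prod.fst_add] at this h5 h6; omega
  have z2 : ∀ p ∈ L, N (2 * n - 1 - p.1, p.2) = 0 := by
    intro p hp
    obtain ⟨s, h1, h2⟩ := hin p hp
    have h3 : Conn Set.univ {z : V | ((2 * n - 1 - z.1, z.2) : V) ∈ L}
        (2 * n - 1 - s.1, s.2) (2 * n - 1 - p.1, p.2) :=
      h2.map (fun p => (2 * n - 1 - p.1, p.2)) (sym_reflx (2 * n - 1)).nb
        (fun p hp => by simpa using hp) (fun _ _ _ _ _ _ => Set.mem_univ _)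
    rw [← hN.conn_dual (E' := Set.univ) (fun p hp => by
      have := hL hp; simp only [hD, Rect, Set.mem_setOf_eq] at this; omega) ?_ h3]
    · exact hN.low _ s.2 (by omega)
    · rintro p q k1 k2 k3 _ (he | he)
      · have := bdx _ he
        have h5 := hL k2
        have h6 := hL k3
        simp only [hD, Rect, Set.mem_setOf_eq, Prod.fst_add] at this h5 h6; omega
      · refine notbd _ _ ((sym_reflx (2 * n - 1)).nb _ _ k1) k2 k3 ?_
        convert he using 1; ext <;> simp; ring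
  obtain ⟨c, t, hc, ht, hcR, hct⟩ := hω
  simp only [Set.mem_setOf_eq] at hc ht
  have htR := hct.mem hcR
  have key : ∀ w, Conn (op ω) R t w → (∃ z ∈ R1, Conn (op ω \ nearS n L) R t z) ∨
      (w ∉ R1 ∧ Conn (op ω \ nearS n L) R t w ∧ N w = 1) := by
    intro w hw
    induction hw with
    | refl =>
      by_cases h : t ∈ R1
      · exact Or.inl ⟨t, h, Conn.refl _ _ _⟩
      · refine Or.inr ⟨h, Conn.refl _ _ _, hN.high t.1 t.2 (by omega) ?_ htR.2.1⟩
        have := htR.1; omega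
    | @tail w w' _ hs ih =>
      rcases ih with ih | ⟨h1, h2, h3⟩
      · exact Or.inl ih
      have hw := hs.2.1
      have hw' := hs.2.2.1
      have ar := hN.around w.1 w.2 hw.1 hw.2.1 h1
      have e0 : N (w.1, w.2) = 1 := h3
      have face : ∀ u v : ℤ, (u = w.1 ∨ u = w.1 - 1) → (v = w.2 ∨ v = w.2 - 1) →
          N (u, v) = 1 := by
        rintro u v (rfl | rfl) (rfl | rfl)
        · exact e0
        · rw [ar.2.1, e0]
        · rw [ar.1, e0]
        · rw [ar.2.2, e0]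
      have hn := hs.1
      have hm : w + w' ∉ nearS n L := by
        rintro (⟨p, q, k1, k2, _, k4⟩ | ⟨p, q, k1, k2, _, k4⟩)
        · have e1 := congrArg Prod.fst k4
          have e2 := congrArg Prod.snd k4
          simp only [Prod.fst_add, Prod.snd_add, nb] at e1 e2 hn k1
          have := face p.1 p.2 (by omega) (by omega)
          have h0 : N (p.1, p.2) = 0 := z1 p k2
          omega
        · have e1 := congrArg Prod.fst k4
          have e2 := congrArg Prod.snd k4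
          simp only [Prod.fst_add, Prod.snd_add, nb] at e1 e2 hn k1
          have := face (2 * n - 1 - p.1) p.2 (by omega) (by omega)
          have h0 := z2 p k2
          omega
      have h4 := h2.tail hn hw hw' ⟨hs.2.2.2, hm⟩
      by_cases h : w' ∈ R1
      · exact Or.inl ⟨w', h, h4⟩
      · refine Or.inr ⟨h, h4, ?_⟩
        rw [← hN.step hn hw.1 hw.2.1 hw'.1 hw'.2.1 h1 h, h3]
  rcases key c hct.symm with ⟨z, h1, h2⟩ | ⟨h1, _, h3⟩
  · exact ⟨t, z, ht, htR, h1, h2⟩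
  · exfalso
    have ar := hN.around c.1 c.2 hcR.1 hcR.2.1 h1
    have e0 : N (c.1, c.2) = 1 := h3
    have := hN.low c.1 (c.2 - 1) (by omega)
    omega

/-- A crossing of the small square joined to the top of the big square. -/
def Xev (n : ℕ) : Set (V → Bool) :=
  {ω | ∃ a b z t : V, a.1 = 0 ∧ b.1 = n ∧ a ∈ Rect 0 n 0 n ∧ Conn (op ω) (Rect 0 n 0 n) a z ∧
    Conn (op ω) (Rect 0 n 0 n) a b ∧ t.2 = 2 * n ∧ t ∈ Rect 0 (2 * n) 0 (2 * n) ∧
    Conn (op ω) (Rect 0 (2 * n) 0 (2 * n)) t z}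

lemma Xev_ge (n : ℕ) (hn : 1 ≤ n) : 1 / 8 ≤ pr (Xev n) := by
  classical
  set D := Rect 0 ((n : ℤ) - 1) (-1) n with hD
  set R := Rect 0 (2 * (n : ℤ)) 0 (2 * n) with hR
  set I : Finset (Finset V) := (Rect.finite 0 ((n : ℤ) - 1) (-1) n).toFinset.powerset.filter
    (fun L => ∃ ω, ω ∉ Dc n ∧ Lset n ω = (L : Set V)) with hI
  have ex : ∀ L : Finset V, ∃ ab : V × V, L ∈ I → ab.1.1 = 0 ∧ ab.2.1 = n ∧
      ab.1 ∈ Rect 0 n 0 n ∧ Conn (bd L D) (Rect 0 n 0 n) ab.1 ab.2 := by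
    intro L
    by_cases h : L ∈ I
    · obtain ⟨ω, h1, h2⟩ := (Finset.mem_filter.mp h).2
      obtain ⟨a, b, k⟩ := exists_crossing n hn (Lset n ω) (Lset.bot n ω) (Lset.top h1)
      rw [h2] at k
      exact ⟨(a, b), fun _ => k⟩
    · exact ⟨0, fun h' => absurd h' h⟩
  choose ab hab using ex
  set A : Finset V → Set (V → Bool) := fun L => {ω | Lset n ω = (L : Set V)} with hA
  set Y : Finset V → Set (V → Bool) := fun L => {ω | ∃ t z : V, t.2 = 2 * n ∧ t ∈ R ∧
    z ∈ cl (bd L D) (Rect 0 n 0 n) (ab L).1 ∧ Conn (op ω \ nearS n L) R t z} with hY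
  have lA : ∀ L : Finset V, Loc (A L) := by
    intro L
    refine Loc.of_finite (S := Rect (-1) (2 * n + 1) (-3) (2 * n + 3)) ?_ (Rect.finite _ _ _ _)
    by_cases h : ∃ ω, Lset n ω = (L : Set V)
    · obtain ⟨ω, hω⟩ := h
      refine (Lset.dep n L).mono ?_
      rintro m ⟨p, q, _, k2, k3, rfl⟩
      rw [← hω] at k2
      have := Lset.sub n ω k2
      simp only [Rect, Set.mem_setOf_eq, Prod.fst_add, Prod.snd_add] at this k3 ⊢; omega
    · intro ω _ _ hω; exact absurd ⟨ω, hω⟩ h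
  have dY : ∀ L : Finset V, ∀ S : Set V, (∀ p q, p ∈ R → q ∈ R → p + q ∉ nearS n L → p + q ∈ S) →
      Dep (Y L) S := by
    rintro L S hS ω ω' h ⟨t, z, h1, h2, h3, h4⟩
    refine ⟨t, z, h1, h2, h3, h4.mono subset_rfl (fun p q _ hp hq he => ?_)⟩
    refine ⟨?_, he.2⟩
    have := h _ (hS p q hp hq he.2)
    have h5 := he.1
    simp only [op, Set.mem_setOf_eq] at h5 ⊢
    rw [← this, h5]
  have lY : ∀ L : Finset V, Loc (Y L) := by
    intro L
    refine Loc.of_finite (dY L (Rect 0 (4 * n) 0 (4 * n)) ?_) (Rect.finite _ _ _ _)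
    intro p q hp hq _
    simp only [hR, Rect, Set.mem_setOf_eq, Prod.fst_add, Prod.snd_add] at hp hq ⊢; omega
  have sy := sym_reflx (2 * n)
  have pY : ∀ L ∈ I, 1 / 4 ≤ pr (Y L) := by
    intro L hL
    obtain ⟨ω0, _, h2⟩ := (Finset.mem_filter.mp hL).2
    obtain ⟨k1, k2, k3, k4⟩ := hab L hL
    have hsub : Vc 0 (2 * n) 0 (2 * n) ⊆
        Y L ∪ {ω | (fun m : V => ω (2 * (2 * n) - m.1, m.2)) ∈ Y L} := by
      intro ω hω
      obtain ⟨t, z, j1, j2, j3, j4⟩ := refl_hit n L (h2 ▸ Lset.sub n ω0)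
        (fun p hp => by rw [← h2] at hp ⊢; exact Lset.inner hp) k1 k2 k3 k4 hω
      rcases j3 with j3 | j3
      · exact Or.inl ⟨t, z, j1, j2, j3, j4⟩
      · have hRR : ∀ p ∈ R, ((2 * n - p.1, p.2) : V) ∈ R := by
          intro p hp
          simp only [hR, Rect, Set.mem_setOf_eq] at hp ⊢; omega
        refine Or.inr ⟨(2 * n - t.1, t.2), (2 * n - z.1, z.2), j1, hRR _ j2, j3, ?_⟩
        refine j4.map (fun p => (2 * n - p.1, p.2)) sy.nb hRR (fun p q _ _ _ he => ?_)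
        have e : ((2 * (2 * (n : ℤ)) - (((2 * n - p.1, p.2) : V) + (2 * n - q.1, q.2)).1,
            (((2 * n - p.1, p.2) : V) + (2 * n - q.1, q.2)).2) : V) = p + q := by
          ext <;> simp; ring
        have e' : (((2 * n - p.1, p.2) : V) + (2 * n - q.1, q.2)) =
            (2 * (2 * (n : ℤ)) - (p + q).1, (p + q).2) := by
          ext <;> simp; ring
        refine ⟨?_, ?_⟩
        · simp only [op, Set.mem_setOf_eq]; rw [e]; exact he.1
        · rintro (h | h)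
          · rw [e'] at h; exact he.2 (Or.inr h)
          · rw [e] at h; exact he.2 (Or.inl h)
    have h3 := (pr_mono hsub).trans (pr_union_le _ _)
    rw [pr_comp sy.inj (lY L)] at h3
    have h4 := half_le_vv (2 * n) (by omega)
    push_cast at h4
    unfold vv at h4
    linarith
  have s1 : ∑ L ∈ I, pr (A L ∩ Y L) ≤ pr (Xev n) := by
    refine pr_sum_le I _ _ (fun L _ => (lA L).inter (lY L)) ?_ ?_
    · intro L _ L' _ hne
      refine Set.disjoint_left.mpr (fun ω h1 h2 => hne ?_)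
      exact Finset.coe_injective (h1.1.symm.trans h2.1)
    · rintro L hL ω ⟨h1, t, z, j1, j2, j3, j4⟩
      obtain ⟨k1, k2, k3, k4⟩ := hab L hL
      have hb : bd L D ⊆ op ω := by
        have := Lset.bd_sub n ω
        rw [h1] at this; exact this
      exact ⟨_, _, z, t, k1, k2, k3, j3.2.mono subset_rfl (fun _ _ _ _ _ he => hb he),
        k4.mono subset_rfl (fun _ _ _ _ _ he => hb he), j1, j2,
        j4.mono subset_rfl (fun _ _ _ _ _ he => he.1)⟩
  have s2 : ∀ L ∈ I, pr (A L) / 4 ≤ pr (A L ∩ Y L) := by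
    intro L hL
    rw [pr_indep (Lset.dep n L) (dY L (nearS n L)ᶜ (fun _ _ _ _ h => h)) ?_ (lA L) (lY L)]
    · have := mul_le_mul_of_nonneg_left (pY L hL) (pr_nonneg (A L))
      linarith
    · exact Set.disjoint_left.mpr (fun m h1 h2 => h2 (Or.inl h1))
  have s3 : pr (Dc n)ᶜ ≤ ∑ L ∈ I, pr (A L) := by
    refine pr_le_sum I A _ (fun ω hω => ?_)
    have hf : (Lset n ω).Finite := (Rect.finite _ _ _ _).subset (Lset.sub n ω)
    simp only [Set.mem_iUnion]
    refine ⟨hf.toFinset, ?_, by simp [hA]⟩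
    refine Finset.mem_filter.mpr ⟨Finset.mem_powerset.mpr ?_, ω, hω, by simp⟩
    intro p hp
    simpa using Lset.sub n ω (by simpa using hp)
  have s4 := Finset.sum_le_sum s2
  rw [← Finset.sum_div] at s4
  have := half_le_noDc n hn
  linarith

end Pool.Agent.Lib.MP_9d2e01_pr
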